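import Pool.Agent.Lib.MP_a2bc17_lc.Main

/-! Small extensions satisfy the hypotheses of the two-model theorem. -/

namespace Pool.Agent.Lib.MP_a2bc17_lc

open ZFSet Pool.Agent.Lib.MP_329f2d_lc

set_option synthInstance.maxSize 100000

/-- Every subset in `N` of a set in `W` is the image of `I` under a relation in `W`. -/
def Span (W N : Set V) (I : V) : Prop :=
  ∀ X ∈ N, ∀ A ∈ W, X ⊆ A → ∃ R ∈ W, ∀ x, x ∈ X ↔ ∃ i ∈ I, pair i x ∈ R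

variable {W N : Set V} {I ν μ : V}

theorem fresh (hW : ZFC W) (hN : ZF N) (hWN : W ⊆ N) (hν : IsOrdinal ν) (hνW : ν ∈ W)
    (hI : I ∈ N) (hIν : I ⊆ ν) (hIW : I ∉ W) (hs : Span W N I) :
    ∃ σ, IsOrdinal σ ∧ σ ⊆ ν ∧ σ ≠ ∅ ∧ ∃ b ∈ N, Unb b σ ∧ ∀ Y ∈ W, Y ⊆ b → ¬ Unb Y σ := by
  have wz : ZF W := hW.1.1
  have so := isOrdinal_succ hν
  have e0 : I ∩ ν = I := by
    ext z; rw [mem_inter]; exact ⟨fun a => a.1, fun a => ⟨a, hIν a⟩⟩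
  have sb : ∀ x ∈ insert ν ν, x ⊆ ν := fun x hx => by
    rcases mem_insert_iff.1 hx with rfl | hx
    exacts [fun _ a => a, hν.subset_of_mem hx]
  have sW : ∀ x ∈ insert ν ν, x ∈ W := fun x hx => by
    rcases mem_insert_iff.1 hx with rfl | hx
    exacts [hνW, wz.mem hx hνW]
  obtain ⟨τ, hτ, t1, t2⟩ := exists_least so (P := fun x => I ∩ x ∉ W)
    ⟨ν, mem_insert _ _, by rwa [e0]⟩
  have τo := so.mem hτ
  have τW := sW τ hτ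
  have t3 : ∀ ξ ∈ τ, I ∩ ξ ∈ W := fun ξ hξ => by_contra fun h =>
    mem_irrefl _ (t2 ξ (so.mem_trans hξ hτ) h hξ)
  have lim : ∀ η ∈ τ, insert η η ∈ τ := fun η hη => by
    refine (((isOrdinal_succ (τo.mem hη)).subset_iff_eq_or_mem τo).1 fun z a =>
      (mem_insert_iff.1 a).elim (fun e => e ▸ hη) fun a => τo.mem_trans a hη).resolve_left
      fun e => t1 ?_
    rw [← e]
    by_cases h : η ∈ I
    · convert tm2 (K := ZF) (t := fun _ η x => insert η x) wz (wz.mem hη τW) (t3 η hη) using 1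
      ext z; simp only [mem_inter, mem_insert_iff]
      exact ⟨fun a => a.2.imp id fun c => ⟨a.1, c⟩,
        fun a => a.elim (fun c => ⟨c ▸ h, .inl c⟩) fun c => ⟨c.1, .inr c.2⟩⟩
    · convert t3 η hη using 1
      ext z; simp only [mem_inter, mem_insert_iff]
      exact ⟨fun a => ⟨a.1, a.2.resolve_left fun c => h (c ▸ a.1)⟩, fun a => ⟨a.1, .inr a.2⟩⟩
  obtain ⟨pw, p1, p2⟩ := hW.2 ν hνW
  have inpw : ∀ ξ ∈ τ, I ∩ ξ ∈ pw := fun ξ hξ =>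
    p2 _ (t3 ξ hξ) fun z a => hIν (mem_inter.1 a).1
  obtain ⟨R, hR, r1⟩ := hs (graph (fun ξ => I ∩ ξ) τ)
    (tm2 (K := ZF) (t := fun _ I τ => graph (fun ξ => I ∩ ξ) τ) hN hI (hWN τW)) (prod τ pw)
    (tm2 (K := ZF) (t := fun _ a b => prod a b) wz τW p1) (isFunc_graph inpw).1
  let Ht : V → V → Prop := fun i ξ => ∃ x ∈ pw, pair i (pair ξ x) ∈ R
  let Cov : V → Prop := fun Y => ∀ ξ ∈ τ, ∃ i ∈ Y, ∃ ζ ∈ τ, Ht i ζ ∧ ξ ∈ ζ
  have nc : ∀ Y ∈ W, Y ⊆ I → ¬ Cov Y := fun Y hY h1 h2 => t1 (by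
    convert (cls4 (K := ZF) (S := fun _ Y τ pw R η => ∃ i ∈ Y, ∃ ζ ∈ τ, ∃ x ∈ pw,
      pair i (pair ζ x) ∈ R ∧ η ∈ x) wz hY τW p1 hR).sep wz τW using 1
    ext η
    simp only [mem_inter, mem_sep]
    constructor
    · rintro ⟨a1, a2⟩
      obtain ⟨i, hi, ζ, hζ, ⟨x, hx, a3⟩, a4⟩ := h2 η a2
      refine ⟨a2, i, hi, ζ, hζ, x, hx, a3, ?_⟩
      rw [← (pair_mem_graph.1 ((r1 _).2 ⟨i, h1 hi, a3⟩)).2]
      exact mem_inter.2 ⟨a1, a4⟩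
    · rintro ⟨a1, i, hi, ζ, -, x, -, a3, a4⟩
      rw [← (pair_mem_graph.1 ((r1 _).2 ⟨i, h1 hi, a3⟩)).2] at a4
      exact ⟨(mem_inter.1 a4).1, a1⟩)
  obtain ⟨σ, hσ, s1, s2⟩ := exists_least so (P := fun x => Cov (I ∩ x))
    ⟨ν, mem_insert _ _, fun ξ hξ => by
      obtain ⟨i, hi, a⟩ := (r1 _).1 (pair_mem_graph.2 ⟨lim ξ hξ, rfl⟩)
      exact ⟨i, e0.symm ▸ hi, _, lim ξ hξ, ⟨_, inpw _ (lim ξ hξ), a⟩, mem_insert _ _⟩⟩
  have σo := so.mem hσ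
  refine ⟨σ, σo, sb σ hσ, fun h0 => t1 ?_, _, (cls4 (K := ZF) (S := fun _ I τ pw R i => i ∈ I ∧
    ∃ ξ ∈ τ, (∃ x ∈ pw, pair i (pair ξ x) ∈ R) ∧ ∀ j ∈ i, j ∈ I → ∀ ζ ∈ τ,
      (∃ x ∈ pw, pair j (pair ζ x) ∈ R) → ζ ∈ ξ) hN hI (hWN τW) (hWN p1) (hWN hR)).sep hN
      (hWN (sW σ hσ)), fun α hα => ?_, fun Y hY h1 h2 => ?_⟩
  · convert wz.empty using 1
    refine (eq_empty _).2 fun y hy => ?_
    obtain ⟨i, hi, -⟩ := s1 y (mem_inter.1 hy).2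
    exact notMem_empty _ (h0 ▸ (mem_inter.1 hi).2)
  · have c1 : ¬ Cov (I ∩ α) := fun h => mem_irrefl _ (s2 α (so.mem_trans hα hσ) h hα)
    have c2 : ¬ Cov (I ∩ {α}) := by
      refine nc _ ?_ fun z a => (mem_inter.1 a).1
      by_cases h : α ∈ I
      · convert wz.singleton (wz.mem hα (sW σ hσ)) using 1
        ext z; simp only [mem_inter, mem_singleton]
        exact ⟨fun a => a.2, fun a => ⟨a ▸ h, a⟩⟩
      · convert wz.empty using 1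
        refine (eq_empty _).2 fun y hy => h ?_
        obtain ⟨a1, a2⟩ := mem_inter.1 hy
        exact mem_singleton.1 a2 ▸ a1
    simp only [Cov, not_forall] at c1 c2
    obtain ⟨β1, b1, c1⟩ := c1
    obtain ⟨β2, b2, c2⟩ := c2
    have u := union_mem τo b1 b2
    obtain ⟨i, hi, ⟨i1, ξ, hξ, i2, i3⟩, i4⟩ := exists_least σo
      (P := fun i => i ∈ I ∧ ∃ ζ ∈ τ, Ht i ζ ∧ β1 ∪ β2 ∈ ζ) (by
        obtain ⟨i, hi, a⟩ := s1 _ u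
        exact ⟨i, (mem_inter.1 hi).2, (mem_inter.1 hi).1, a⟩)
    refine ⟨i, mem_sep.2 ⟨hi, i1, ξ, hξ, i2, fun j hj j1 ζ hζ j2 => ?_⟩, hi, ?_⟩
    · refine (τo.mem hζ).mem_of_subset_of_mem (τo.mem hξ) ?_ i3
      exact ((τo.mem u).notMem_iff_subset (τo.mem hζ)).1 fun a =>
        mem_irrefl _ (i4 j (σo.mem_trans hj hi) ⟨j1, ζ, hζ, j2, a⟩ hj)
    · rcases (σo.mem hα).mem_trichotomous (σo.mem hi) with c | rfl | c
      · exact c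
      · exact absurd ⟨α, mem_inter.2 ⟨i1, mem_singleton.2 rfl⟩, ξ, hξ, i2,
          (τo.mem b2).mem_of_subset_of_mem (τo.mem hξ) (fun z a => mem_union.2 (.inr a)) i3⟩ c2
      · exact absurd ⟨i, mem_inter.2 ⟨i1, c⟩, ξ, hξ, i2,
          (τo.mem b1).mem_of_subset_of_mem (τo.mem hξ) (fun z a => mem_union.2 (.inl a)) i3⟩ c1
  · refine nc Y hY (fun z a => (mem_sep.1 (h1 a)).2.1) fun ξ hξ => ?_
    obtain ⟨j, hj, ζ, hζ, a1, a2⟩ := s1 ξ hξ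
    obtain ⟨i, hi, -, a3⟩ := h2 j (mem_inter.1 hj).2
    obtain ⟨-, -, ξ', b1, b2, b3⟩ := mem_sep.1 (h1 hi)
    exact ⟨i, hi, ξ', b1, b2, (τo.mem b1).mem_trans a2 (b3 j a3 (mem_inter.1 hj).1 ζ hζ a1)⟩

/-- The sequence built from a step function. -/
noncomputable def sq (S : V) : V → V := rrec id fun _ h => ap S h

theorem sq_eq (S ξ : V) : sq S ξ = ap S (graph (sq S) ξ) := by
  rw [sq, rrec_eq fun _ => rank_lt_of_mem]; rfl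

instance tm_sq {K : Set V → Prop} [Cl K] {Γ : Type} [Countable Γ]
    (s t : Set V → (Γ → V) → V) [Tm K s] [Tm K t] : Tm K fun W v => sq (s W v) (t W v) :=
  tm_rrec (fun _ _ x => x) (fun W v _ h => ap (s W v) h) (fun _ _ _ _ => rank_lt_of_mem) t

theorem closed_seq (hW : ZFC W) (hN : ZF N) (hWN : W ⊆ N) (hμ : Regu N μ) (hμW : μ ∈ W)
    (hν : ν ∈ μ) (hIν : I ⊆ ν) (hs : Span W N I) {σ : V} (hσ : σ ∈ μ) (F : V) (hF : F ∈ N)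
    (hf : Fn F) : ∃ e ∈ W, IsFunc σ μ e ∧ ∀ ξ ∈ σ, ∀ x y, pair ξ x ∈ e → y ∈ μ →
      pair (e ∩ prod ξ μ) y ∈ F → y ∈ x := by
  have wz : ZF W := hW.1.1
  have ho := hμ.ord
  have σW := wz.mem hσ hμW
  have νW := wz.mem hν hμW
  obtain ⟨T, T1, T2⟩ := hW.2 _ (tm2 (K := ZF) (t := fun _ a b => prod a b) wz σW hμW)
  have pT := tm2 (K := ZF) (t := fun _ a b => prod a b) wz T1 hμW
  obtain ⟨R, hR, r1⟩ := hs (F ∩ prod T μ)
    (tm2 (K := ZF) (t := fun _ a b => a ∩ b) hN hF (hWN pT)) _ pT fun z a => (mem_inter.1 a).2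
  obtain ⟨S, hS, -, -, s1⟩ := Cls2.choice (W := W) hW.1
    (R := fun s m => m ∈ μ ∧ ∀ i ∈ ν, ∀ y ∈ μ, pair i (pair s y) ∈ R →
      (∀ z ∈ μ, pair i (pair s z) ∈ R → z = y) → y ∈ m)
    (cls3 (K := ZF) (S := fun _ μ ν R z => snd z ∈ μ ∧ ∀ i ∈ ν, ∀ y ∈ μ,
      pair i (pair (fst z) y) ∈ R → (∀ w ∈ μ, pair i (pair (fst z) w) ∈ R → w = y) → y ∈ snd z)
      wz hμW νW hR) T1 fun s hs => by
      let t : V → V → V → V → V := fun μ R s i => ⋃₀ ZFSet.sep (fun y => pair i (pair s y) ∈ R ∧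
        ∀ z ∈ μ, pair i (pair s z) ∈ R → z = y) μ
      have t1 : ∀ i, ∀ y ∈ μ, pair i (pair s y) ∈ R →
          (∀ z ∈ μ, pair i (pair s z) ∈ R → z = y) → t μ R s i = y := fun i y a1 a2 a3 => by
        have : ZFSet.sep (fun y => pair i (pair s y) ∈ R ∧
            ∀ z ∈ μ, pair i (pair s z) ∈ R → z = y) μ = {y} := by
          ext z; simp only [mem_sep, mem_singleton]
          exact ⟨fun a => a3 z a.1 a.2.1, fun a => a ▸ ⟨a1, a2, a3⟩⟩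
        simp only [t, this, sUnion_singleton]
      have t2 : ∀ i, t μ R s i ∈ μ := fun i => by
        by_cases h : ∃ y ∈ μ, pair i (pair s y) ∈ R ∧ ∀ z ∈ μ, pair i (pair s z) ∈ R → z = y
        · obtain ⟨y, a1, a2, a3⟩ := h
          rwa [t1 i y a1 a2 a3]
        · convert hμ.zero using 1
          refine (eq_empty _).2 fun w hw => h ?_
          obtain ⟨y, a1, -⟩ := mem_sUnion.1 hw
          exact ⟨y, mem_sep.1 a1⟩
      obtain ⟨m, hm, h⟩ := hμ.bdd hν (t := t μ R s)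
        (hWN (tm4 (K := ZF) (t := fun _ μ R s ν => graph (t μ R s) ν) wz hμW hR (wz.mem hs T1) νW))
        fun i _ => t2 i
      refine ⟨insert m m, wz.mem (hμ.succ hN hm) hμW, hμ.succ hN hm, fun i hi y a1 a2 a3 => ?_⟩
      exact (ho.mem a1).mem_of_subset_of_mem (isOrdinal_succ (ho.mem hm))
        (t1 i y a1 a2 a3 ▸ h i hi) (mem_insert _ _)
  have gW : ∀ ξ ∈ W, graph (sq S) ξ ∈ W := fun ξ hξ =>
    tm2 (K := ZF) (t := fun _ S ξ => graph (fun η => sq S η) ξ) wz hS hξ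
  have σo := ho.mem hσ
  have key : ∀ ξ, ξ ∈ σ → graph (sq S) ξ ∈ T := fun ξ => by
    induction ξ using ZFSet.inductionOn with
    | _ ξ ih =>
    intro hξ
    refine T2 _ (gW ξ (wz.mem hξ σW)) fun z hz => ?_
    obtain ⟨η, hη, rfl⟩ := mem_graph.1 hz
    have := σo.mem_trans hη hξ
    exact pair_mem_prod.2 ⟨this, by rw [sq_eq]; exact (s1 _ (ih η hη this)).1⟩
  have sμ : ∀ ξ ∈ σ, sq S ξ ∈ μ := fun ξ hξ => by rw [sq_eq]; exact (s1 _ (key ξ hξ)).1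
  refine ⟨_, gW σ σW, isFunc_graph sμ, fun ξ hξ x y a1 a2 a3 => ?_⟩
  have e1 : graph (sq S) σ ∩ prod ξ μ = graph (sq S) ξ := by
    ext z
    simp only [mem_inter, mem_graph]
    constructor
    · rintro ⟨⟨η, -, rfl⟩, a⟩
      exact ⟨η, (pair_mem_prod.1 a).1, rfl⟩
    · rintro ⟨η, hη, rfl⟩
      exact ⟨⟨η, σo.mem_trans hη hξ, rfl⟩, pair_mem_prod.2 ⟨hη, sμ η (σo.mem_trans hη hξ)⟩⟩
  rw [e1] at a3
  obtain ⟨i, hi, a4⟩ := (r1 _).1 (mem_inter.2 ⟨a3, pair_mem_prod.2 ⟨key ξ hξ, a2⟩⟩)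
  rw [← (pair_mem_graph.1 a1).2, sq_eq]
  exact (s1 _ (key ξ hξ)).2 i (hIν hi) y a2 a4 fun z _ a5 =>
    hf _ _ _ (mem_inter.1 ((r1 _).2 ⟨i, hi, a5⟩)).1 a3

theorem mem_of_otp (hμ : IsOrdinal μ) {B ρ : V} (hB : B ⊆ μ) (hνB : ∀ α ∈ insert ν ν, α ∈ B)
    (ρo : IsOrdinal ρ) (hO : Otp N B ρ) : ν ∈ ρ := by
  obtain ⟨f, hf, f1, f2⟩ := hO
  have fm : ∀ η ∈ ρ, ∀ ξ ∈ η, ap f ξ ∈ ap f η := fun η hη ξ hξ =>
    f2 _ _ _ _ (isFunc_ap f1.1 (ρo.mem_trans hξ hη)).1 (isFunc_ap f1.1 hη).1 hξ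
  have νo : IsOrdinal ν := hμ.mem (hB (hνB ν (mem_insert _ _)))
  have le : ∀ α, α ∈ insert ν ν → ∀ η ∈ ρ, ap f η = α → α ⊆ η := fun α => by
    induction α using ZFSet.inductionOn with
    | _ α ih =>
    intro hα η hη e β hβ
    have hβ' := (isOrdinal_succ νo).mem_trans hβ hα
    obtain ⟨ξ, hξ, e'⟩ := f1.ap (hνB β hβ')
    refine ((isOrdinal_succ νo).mem hβ').mem_of_subset_of_mem (ρo.mem hη) (ih β hβ hβ' ξ hξ e') ?_
    rcases (ρo.mem hξ).mem_trichotomous (ρo.mem hη) with c | rfl | c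
    · exact c
    · exact absurd (e'.symm.trans e ▸ hβ) (mem_irrefl _)
    · exact absurd (e ▸ e' ▸ fm ξ hξ η c) (mem_asymm hβ)
  obtain ⟨η, hη, e⟩ := f1.ap (hνB ν (mem_insert _ _))
  exact νo.mem_of_subset_of_mem ρo (le ν (mem_insert _ _) η hη e) hη

theorem cover (hW : ZF W) (hN : ZFC N) (hWN : W ⊆ N) (hμ : IsOrdinal μ) (hμW : μ ∈ W)
    (hνμ : ν ∈ μ) (hI : I ∈ N) (hIν : I ⊆ ν) (hs : Span W N I) {B ρ X : V} (hB : B ⊆ μ)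
    (νρ : ν ∈ ρ) (hρ : Regu N ρ) (hO : Otp N B ρ) (hX : X ∈ N)
    (hu : Unb X (⋃₀ B)) : ∃ Y ∈ W, Y ⊆ ⋃₀ B ∧ Unb Y (⋃₀ B) ∧ ∀ γ ∈ Y, γ ∈ X := by
  have hz : ZF N := hN.1.1
  obtain ⟨f, hf, f1, f2⟩ := hO
  have ρo := hρ.ord
  have fB : ∀ ξ ∈ ρ, ap f ξ ∈ B := fun ξ hξ => (isFunc_ap f1.1 hξ).2
  have fo : ∀ ξ ∈ ρ, IsOrdinal (ap f ξ) := fun ξ hξ => hμ.mem (hB (fB ξ hξ))
  have fm : ∀ η ∈ ρ, ∀ ξ ∈ η, ap f ξ ∈ ap f η := fun η hη ξ hξ =>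
    f2 _ _ _ _ (isFunc_ap f1.1 (ρo.mem_trans hξ hη)).1 (isFunc_ap f1.1 hη).1 hξ
  have δo : IsOrdinal (⋃₀ B : V) := isOrdinal_sUnion fun x hx => hμ.mem (hB hx)
  have δμ : (⋃₀ B : V) ⊆ μ := fun z a => by
    obtain ⟨x, hx, a⟩ := mem_sUnion.1 a
    exact hμ.mem_trans a (hB hx)
  have δW : (⋃₀ B : V) ∈ W := by
    rcases (δo.subset_iff_eq_or_mem hμ).1 δμ with e | e
    exacts [e ▸ hμW, hW.mem e hμW]
  obtain ⟨R, hR, r1⟩ := hs (X ∩ ⋃₀ B)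
    (tm2 (K := ZF) (t := fun _ a b => a ∩ b) hz hX (hWN δW)) _ δW fun z a => (mem_inter.1 a).2
  by_contra hc
  obtain ⟨u, hu', -, ud, u1⟩ := Cls2.choice (W := N) hN.1
    (R := fun i η => η ∈ ρ ∧ (i ∈ I → ∀ β ∈ (⋃₀ B : V), pair i β ∈ R → β ∈ ap f η))
    (cls5 (K := ZF) (S := fun _ ρ I δ R f z => snd z ∈ ρ ∧ (fst z ∈ I → ∀ β ∈ δ,
      pair (fst z) β ∈ R → β ∈ ap f (snd z))) hz hρ.1.1 hI (hWN δW) (hWN hR) hf)
    (hz.mem νρ hρ.1.1) fun i hi => by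
      by_cases h : i ∈ I
      swap
      · exact ⟨∅, hz.empty, hρ.zero, fun a => absurd a h⟩
      have iW : i ∈ W := hW.mem (hμ.mem_trans hi hνμ) hμW
      have h1 : ¬ Unb (ZFSet.sep (fun β => pair i β ∈ R) (⋃₀ B)) (⋃₀ B) := fun a =>
        hc ⟨_, (cls2 (K := ZF) (S := fun _ i R β => pair i β ∈ R) hW iW hR).sep hW δW,
          fun z a => (mem_sep.1 a).1, a,
          fun γ a => (mem_inter.1 ((r1 _).2 ⟨i, h, (mem_sep.1 a).2⟩)).1⟩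
      simp only [Unb, not_forall] at h1
      obtain ⟨α, hα, h1⟩ := h1
      obtain ⟨x, hx, a⟩ := mem_sUnion.1 hα
      obtain ⟨η, hη, rfl⟩ := f1.ap hx
      refine ⟨η, hz.mem hη hρ.1.1, hη, fun _ β b1 b2 => ?_⟩
      exact (δo.mem b1).mem_of_subset_of_mem (fo η hη)
        (((δo.mem hα).notMem_iff_subset (δo.mem b1)).1 fun c =>
          h1 ⟨β, mem_sep.2 ⟨b1, b2⟩, b1, c⟩) a
  obtain ⟨m, hm, h⟩ := hρ.bdd νρ (t := fun i => ap u i)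
    (tm2 (K := ZF) (t := fun _ u ν => graph (fun i => ap u i) ν) hz hu' (hz.mem νρ hρ.1.1))
    fun i hi => (u1 i hi).1
  obtain ⟨β, b1, b2, b3⟩ := hu (ap f m) (mem_sUnion.2 ⟨_, fB _ (hρ.succ hz hm),
    fm _ (hρ.succ hz hm) m (mem_insert _ _)⟩)
  obtain ⟨i, hi, a⟩ := (r1 β).1 (mem_inter.2 ⟨b1, b2⟩)
  have c := (u1 i (hIν hi)).2 hi β b2 a
  rcases ((ρo.mem (u1 i (hIν hi)).1).subset_iff_eq_or_mem (ρo.mem hm)).1 (h i (hIν hi)) with e | e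
  · exact mem_asymm b3 (e ▸ c)
  · exact mem_asymm b3 ((fo m hm).mem_trans c (fm m hm _ e))

theorem const_alg (hN : ZF N) (hμ : IsOrdinal μ) (hμN : μ ∈ N) {α : V} (hα : α ∈ μ) :
    ∃ ν', ν' ⊆ α ∧ Card N ν' ∧ ∃ A ∈ N, Alg A ν' μ ∧ ∀ B, Subalg A μ B → ∀ x ∈ α, x ∈ B := by
  have αo := hμ.mem hα
  have αN := hN.mem hα hμN
  have so := isOrdinal_succ αo
  obtain ⟨ν', h1, ⟨g, hg, g1⟩, h2⟩ := exists_least so (P := fun x => ∃ g ∈ N, Onto g x α)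
    ⟨α, mem_insert _ _, graph (fun x => x) α,
      tm1 (K := ZF) (t := fun _ α => graph (fun x => x) α) hN αN,
      onto_graph (fun _ a => a) fun y hy => ⟨y, hy, rfl⟩⟩
  have sb : ν' ⊆ α := by
    rcases mem_insert_iff.1 h1 with rfl | h1
    exacts [fun _ a => a, αo.subset_of_mem h1]
  have νN : ν' ∈ N := by
    rcases mem_insert_iff.1 h1 with rfl | h1
    exacts [αN, hN.mem h1 αN]
  refine ⟨ν', sb, ⟨νN, so.mem h1, fun β hβ ⟨k, hk, k1⟩ => mem_irrefl β (h2 β (so.mem_trans hβ h1)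
    ⟨graph (fun x => ap g (ap k x)) β, tm3 (K := ZF)
      (t := fun _ g k β => graph (fun x => ap g (ap k x)) β) hN hg hk (hN.mem hβ νN),
      onto_graph (fun x hx => (isFunc_ap g1.1 (isFunc_ap k1.1 hx).2).2) fun y hy => ?_⟩ hβ)⟩,
    graph (fun i => {pair ∅ (ap g i)}) ν', tm2 (K := ZF)
      (t := fun _ g ν' => graph (fun i => {pair ∅ (ap g i)}) ν') hN hg νN,
    ⟨img (fun i => {pair ∅ (ap g i)}) ν', isFunc_graph fun i hi => mem_img.2 ⟨i, hi, rfl⟩,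
      fun f hf => ?_⟩, fun B hB x hx => ?_⟩
  · obtain ⟨i, hi, rfl⟩ := g1.ap hy
    obtain ⟨x, hx, rfl⟩ := k1.ap hi
    exact ⟨x, hx, rfl⟩
  · obtain ⟨i, hi, rfl⟩ := mem_img.1 hf
    have e : ∀ s, s ∈ funs ∅ μ ↔ s = ∅ := fun s => by
      rw [mem_funs]
      refine ⟨fun a => (eq_empty _).2 fun z hz => ?_, fun a => a ▸ isFunc_empty⟩
      obtain ⟨x, hx, -⟩ := mem_prod.1 (a.1 hz)
      exact notMem_empty _ hx
    refine ⟨∅, omega_zero, fun z hz => ?_, fun s hs => ⟨ap g i, ?_, fun y hy => ?_⟩⟩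
    · rw [mem_singleton.1 hz]
      exact pair_mem_prod.2 ⟨(e _).2 rfl, hμ.mem_trans (isFunc_ap g1.1 hi).2 hα⟩
    · simp only [(e s).1 hs, mem_singleton]
    · exact (pair_inj.1 (mem_singleton.1 hy)).2
  · obtain ⟨i, hi, rfl⟩ := g1.ap hx
    exact hB.2 i _ ∅ _ (pair_mem_graph.2 ⟨hi, rfl⟩) (mem_singleton.2 rfl)
      fun k x a => absurd a (notMem_empty _)

theorem span_model (hW : ZFC W) (hN : ZFC N) (hc : N.Countable) (hWN : W ⊆ N) {κ : V}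
    (hμ : Regu N μ) (hμW : μ ∈ W) (hκ : κ ∈ μ) (hν : insert ν ν ∈ κ) (hI : I ∈ N) (hIν : I ⊆ ν)
    (hIW : I ∉ W) (hs : Span W N I) :
    ∃ Q ∈ N, Po Q ∧ DirCl N Q μ ∧ (∃ H, Generic N Q H) ∧
      ∀ H, Generic N Q H → ¬ DeltaRefl (Ext N H) κ μ := by
  have ho := hμ.ord
  have κo := ho.mem hκ
  have νκ := κo.mem_trans (mem_insert _ _) hν
  have νμ := ho.mem_trans νκ hκ
  obtain ⟨σ, s1, s2, s3, b, b1, b2, b3⟩ := fresh hW hN.1.1 hWN (ho.mem νμ) (hW.1.1.mem νμ hμW)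
    hI hIν hIW hs
  have σκ := s1.mem_of_subset_of_mem κo s2 νκ
  obtain ⟨ν', n1, n2, A, a1, a2, a3⟩ := const_alg hN.1.1 ho hμ.1.1 (ho.mem_trans hν hκ)
  exact two_model hW hN hc hWN hμ hμW hκ σκ s3 b1 b2 b3
    (closed_seq hW hN.1.1 hWN hμ hμW νμ hIν hs (ho.mem_trans σκ hκ))
    (n2.2.1.mem_of_subset_of_mem κo n1 hν) n2 a1 a2 fun B _ hB ρ _ hρ hO X hX hu => by
      obtain ⟨Y, y1, y2, y3, y4⟩ := cover hW.1.1 hN hWN ho hμW νμ hI hIν hs hB.1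
        (mem_of_otp ho hB.1 (a3 B hB) hρ.ord hO) hρ hO hX hu
      exact ⟨Y, y1, y2, y3, fun γ a => .inl (y4 γ a)⟩

theorem ext_span (hW : ZFC W) {P G f : V} (hP : P ∈ W) (hPo : Po P) (hG : Generic W P G)
    (hGW : G ∉ W) (νW : ν ∈ W) (hf : f ∈ W) (hf1 : Onto f ν P) :
    ∃ I ∈ Ext W G, I ⊆ ν ∧ I ∉ W ∧ Span W (Ext W G) I := by
  have wz : ZF W := hW.1.1
  have hN := ext_zfc wz hP hPo hG hW
  have sub := subset_ext wz hP hPo hG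
  have idx : ∀ p ∈ G, ∃ i ∈ ν, fst (ap f i) = p := fun p hp => by
    obtain ⟨i, hi, e⟩ := hf1.ap (hG.1.cond hp)
    exact ⟨i, hi, by rw [e, fst_pair]⟩
  refine ⟨ZFSet.sep (fun i => fst (ap f i) ∈ G) ν,
    (cls2 (K := ZF) (S := fun _ f G i => fst (ap f i) ∈ G) hN.1.1 (sub hf)
      (self_mem_ext wz hP hPo hG)).sep hN.1.1 (sub νW), fun z a => (mem_sep.1 a).1,
    fun h => hGW ?_, ?_⟩
  · convert tm2 (K := ZF) (t := fun _ f I => img (fun i => fst (ap f i)) I) wz hf h using 1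
    ext p
    simp only [mem_img, mem_sep]
    refine ⟨fun hp => ?_, ?_⟩
    · obtain ⟨i, hi, e⟩ := idx p hp
      exact ⟨i, ⟨hi, e ▸ hp⟩, e⟩
    · rintro ⟨i, ⟨-, a⟩, rfl⟩
      exact a
  · rintro _ ⟨τ, hτ, rfl⟩ A hA hX
    refine ⟨_, (cls3 (K := ZF) (S := fun _ P f τ z => FM P (fst (ap f (fst z))) (chk P (snd z)) τ)
      wz hP hf hτ).sep wz (tm2 (K := ZF) (t := fun _ a b => prod a b) wz νW hA), fun x => ?_⟩
    simp only [mem_sep, pair_mem_prod, fst_pair, snd_pair]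
    constructor
    · intro hx
      obtain ⟨p, hp, a⟩ := (val_mem_iff wz hP hPo hG (chk_mem wz hP (wz.mem (hX hx) hA)) hτ).1
        (by rwa [val_chk hG.1])
      obtain ⟨i, hi, rfl⟩ := idx p hp
      exact ⟨i, ⟨hi, hp⟩, ⟨hi, hX hx⟩, a⟩
    · rintro ⟨i, ⟨-, a1⟩, ⟨-, a2⟩, a3⟩
      have := (val_mem_iff wz hP hPo hG (chk_mem wz hP (wz.mem a2 hA)) hτ).2 ⟨_, a1, a3⟩
      rwa [val_chk hG.1] at this

theorem small_forcing (hW : ZFC W) (hc : W.Countable) {P G κ f : V} (hP : P ∈ W) (hPo : Po P)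
    (hG : Generic W P G) (hGW : G ∉ W) (hμ : Regu (Ext W G) μ) (hκ : κ ∈ μ)
    (hν : insert ν ν ∈ κ) (hf : f ∈ W) (hf1 : Onto f ν P) :
    ∃ Q ∈ Ext W G, Po Q ∧ DirCl (Ext W G) Q μ ∧ (∃ H, Generic (Ext W G) Q H) ∧
      ∀ H, Generic (Ext W G) Q H → ¬ DeltaRefl (Ext (Ext W G) H) κ μ := by
  have wz : ZF W := hW.1.1
  have hμW := ext_ord wz hP hPo hG μ hμ.1.1 hμ.ord
  obtain ⟨I, h1, h2, h3, h4⟩ := ext_span hW hP hPo hG hGW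
    (wz.mem (mem_insert _ _) (wz.mem hν (wz.mem hκ hμW))) hf hf1
  exact span_model hW (ext_zfc wz hP hPo hG hW) (hc.image _) (subset_ext wz hP hPo hG) hμ hμW
    hκ hν h1 h2 h3 h4

end Pool.Agent.Lib.MP_a2bc17_lc
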