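import Pool.Agent.Lib.MP_329f2d_lc.H59Defs

/-! Delta reflection and directed closed forcing, read in a transitive class `M` of sets. -/

namespace Pool.Agent.Lib.MP_a2bc17_lc

open ZFSet Pool.Agent.Lib.MP_329f2d_lc

/-- `X ∩ δ` is unbounded in `δ`. -/
def Unb (X δ : V) : Prop := ∀ α ∈ δ, ∃ β ∈ X, β ∈ δ ∧ α ∈ β

/-- `C` is a closed unbounded subset of `δ`. -/
def Club (C δ : V) : Prop := C ⊆ δ ∧ Unb C δ ∧ ∀ γ ∈ δ, γ ≠ ∅ → Unb C γ → γ ∈ C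

/-- `S` meets every club of `δ` that lies in `M`. -/
def Stat (M : Set V) (S δ : V) : Prop := ∀ C ∈ M, Club C δ → ∃ γ ∈ S, γ ∈ C

/-- `cf α < κ` in `M`. -/
def CofLt (M : Set V) (α κ : V) : Prop :=
  ∃ τ ∈ κ, ∃ f ∈ M, IsFunc τ α f ∧ ∀ β ∈ α, ∃ ξ y, pair ξ y ∈ f ∧ β ⊆ y

/-- `ρ` is an infinite regular cardinal of `M`. -/
def Regu (M : Set V) (ρ : V) : Prop := Card M ρ ∧ omega ⊆ ρ ∧ ¬ CofLt M ρ ρ

/-- The set of ordinals `B` has order type `ρ`. -/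
def Otp (M : Set V) (B ρ : V) : Prop :=
  ∃ f ∈ M, Onto f ρ B ∧ ∀ ξ η x y, pair ξ x ∈ f → pair η y ∈ f → ξ ∈ η → x ∈ y

/-- `A` is a family, indexed by `ν`, of finitary operations on `μ`. -/
def Alg (A ν μ : V) : Prop :=
  ∃ c, IsFunc ν c A ∧ ∀ f ∈ c, ∃ n ∈ omega, IsFunc (funs n μ) μ f

/-- `B` is a subset of `μ` closed under the operations of `A`. -/
def Subalg (A μ B : V) : Prop :=
  B ⊆ μ ∧ ∀ i f s y, pair i f ∈ A → pair s y ∈ f → (∀ k x, pair k x ∈ s → x ∈ B) → y ∈ B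

/-- `Δ_{κ,μ}` holds in `M`. -/
def DeltaRefl (M : Set V) (κ μ : V) : Prop :=
  ∀ ν ∈ κ, Card M ν → ∀ S ∈ M, S ⊆ μ → Stat M S μ → (∀ α ∈ S, CofLt M α κ) →
    ∀ A ∈ M, Alg A ν μ →
      ∃ B ∈ M, Subalg A μ B ∧ ∃ ρ ∈ κ, Regu M ρ ∧ Otp M B ρ ∧ Stat M (S ∩ B) (⋃₀ B)

/-- `Q` is `μ`-directed closed in `M`: every set of fewer than `μ` pairwise compatible conditions
has a lower bound. -/
def DirCl (M : Set V) (Q μ : V) : Prop :=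
  ∀ D ∈ M, (∀ p ∈ D, pair p p ∈ Q) → (∃ α ∈ μ, ∃ f ∈ M, Onto f α D) →
    (∀ p ∈ D, ∀ q ∈ D, ∃ r, pair r p ∈ Q ∧ pair r q ∈ Q) →
      ∃ r, pair r r ∈ Q ∧ ∀ p ∈ D, pair r p ∈ Q

end Pool.Agent.Lib.MP_a2bc17_lc
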