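import Pool.Agent.Lib.MP_a2bc17_lc.Small

/-! Extensions of small extensions that add no short sequences. -/

namespace Pool.Agent.Lib.MP_a2bc17_lc

open ZFSet Pool.Agent.Lib.MP_329f2d_lc

set_option synthInstance.maxSize 100000

variable {W M N : Set V} {I ν μ : V}

theorem Regu.down {ρ : V} (h : Regu N ρ) (hMN : M ⊆ N) (hρ : ρ ∈ M) : Regu M ρ :=
  ⟨⟨hρ, h.ord, fun α hα ⟨g, hg, a⟩ => h.1.2.2 α hα ⟨g, hMN hg, a⟩⟩, h.2.1,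
    fun ⟨τ, a1, g, a2, a3⟩ => h.2.2 ⟨τ, a1, g, hMN a2, a3⟩⟩

theorem cover_up (hW : ZF W) (hM : ZFC M) (hN : ZF N) (hWM : W ⊆ M) (hMN : M ⊆ N)
    (hμ : Regu N μ) (hμW : μ ∈ W) (hd : ∀ α ∈ μ, ∀ f ∈ N, IsFunc α μ f → f ∈ M)
    (hI : I ∈ M) (hIν : I ⊆ ν) (hs : Span W M I) {B ρ X : V} (hB : B ⊆ μ) (νρ : ν ∈ ρ)
    (ρμ : ρ ∈ μ) (hρ : Regu N ρ) (hO : Otp N B ρ) (hX : X ∈ N) (hu : Unb X (⋃₀ B)) :
    ∃ Y ∈ W, Y ⊆ ⋃₀ B ∧ Unb Y (⋃₀ B) ∧ ∀ γ ∈ Y, γ ∈ X := by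
  have ho := hμ.ord
  have mz : ZF M := hM.1.1
  obtain ⟨f, hf, f1, f2⟩ := hO
  have fM : f ∈ M := hd ρ ρμ f hf ⟨fun z a => by
    obtain ⟨x, a1, y, a2, rfl⟩ := mem_prod.1 (f1.1.1 a)
    exact pair_mem_prod.2 ⟨a1, hB a2⟩, f1.1.2⟩
  have δμ : (⋃₀ B : V) ∈ μ := by
    obtain ⟨m, hm, hm'⟩ := hμ.bdd ρμ (t := fun x => ap f x)
      (tm2 (K := ZF) (t := fun _ f ρ => graph (fun x => ap f x) ρ) hN hf (hN.mem ρμ hμ.1.1))
      fun x hx => hB (isFunc_ap f1.1 hx).2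
    refine sUnion_mem ho hm fun x hx => ⟨hB hx, ?_⟩
    obtain ⟨ξ, hξ, rfl⟩ := f1.ap hx
    exact hm' ξ hξ
  have gM := hd _ δμ (graph (fun x => ZFSet.sep (fun _ => x ∈ X) {∅}) (⋃₀ B))
    (tm2 (K := ZF) (t := fun _ X δ => graph (fun x => ZFSet.sep (fun _ => x ∈ X) {∅}) δ) hN hX
      (hN.mem δμ hμ.1.1)) (isFunc_graph fun x _ => by
      by_cases h : x ∈ X
      · convert hμ.succ hN hμ.zero using 1
        ext z; simp [h]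
      · convert hμ.zero using 1
        ext z; simp [h])
  have XM : X ∩ ⋃₀ B ∈ M := by
    convert (cls1 (K := ZF) (S := fun _ g x => pair x {∅} ∈ g) mz gM).sep mz
      (mz.mem δμ (hWM hμW)) using 1
    ext x
    simp only [mem_inter, mem_sep, pair_mem_graph]
    refine ⟨fun a => ⟨a.2, a.2, by ext z; simp [a.1]⟩, fun a => ⟨?_, a.1⟩⟩
    have : (∅ : V) ∈ ZFSet.sep (fun _ => x ∈ X) {∅} := by rw [a.2.2]; simp
    exact (mem_sep.1 this).2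
  obtain ⟨Y, y1, y2, y3, y4⟩ := cover hW hM hWM ho hμW (ho.mem_trans νρ ρμ) hI hIν hs hB νρ
    (hρ.down hMN (mz.mem ρμ (hWM hμW))) ⟨f, fM, f1, f2⟩ XM fun α hα => by
      obtain ⟨β, a1, a2, a3⟩ := hu α hα
      exact ⟨β, mem_inter.2 ⟨a1, a2⟩, a2, a3⟩
  exact ⟨Y, y1, y2, y3, fun γ a => (mem_inter.1 (y4 γ a)).1⟩

theorem sq_mem {K : Set V} (hK : ZF K) {S T σ : V} (hS : S ∈ K) (σo : IsOrdinal σ) (hσ : σ ∈ K)
    (hT : ∀ z ∈ K, z ⊆ prod σ μ → z ∈ T) (h : ∀ s ∈ T, ap S s ∈ μ) (ξ : V) :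
    ξ ∈ σ → graph (sq S) ξ ∈ T := by
  induction ξ using ZFSet.inductionOn with
  | _ ξ ih =>
  intro hξ
  refine hT _ (tm2 (K := ZF) (t := fun _ S ξ => graph (fun η => sq S η) ξ) hK hS (hK.mem hξ hσ))
    fun z hz => ?_
  obtain ⟨η, hη, rfl⟩ := mem_graph.1 hz
  have := σo.mem_trans hη hξ
  exact pair_mem_prod.2 ⟨this, by rw [sq_eq]; exact h _ (ih η hη this)⟩

theorem ap_graph' {t : V → V} {a x : V} (hx : x ∈ a) : ap (graph t a) x = t x :=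
  (fn_graph t a).ap_eq (pair_mem_graph.2 ⟨hx, rfl⟩)

theorem closed_seq_up (hW : ZFC W) (hN : ZFC N) (hWN : W ⊆ N) (hμ : Regu N μ) (hμW : μ ∈ W)
    {ρ θ g σ : V} (hρ : Regu N ρ) (ρμ : ρ ∈ μ) (hσ : σ ∈ ρ) (hθ : θ ∈ μ) (hg : g ∈ N)
    (hg1 : ∀ z ∈ N, z ⊆ prod ρ ρ → ∃ x ∈ θ, ap g x = z)
    (hcov : ∀ B ∈ N, B ⊆ μ → Otp N B ρ → Unb B (⋃₀ B) →
      ∃ Y ∈ W, Unb Y (⋃₀ B) ∧ ∀ γ ∈ Y, γ ∈ B)
    (F : V) (hF : F ∈ N) (hf : Fn F) : ∃ e ∈ W, IsFunc σ μ e ∧ ∀ ξ ∈ σ, ∀ x y, pair ξ x ∈ e →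
      y ∈ μ → pair (e ∩ prod ξ μ) y ∈ F → y ∈ x := by
  have wz : ZF W := hW.1.1
  have hz : ZF N := hN.1.1
  have ho := hμ.ord
  have ρo := hρ.ord
  have σo := ρo.mem hσ
  have σW := wz.mem (ho.mem_trans hσ ρμ) hμW
  obtain ⟨T, T1, T2⟩ := hN.2 _ (tm2 (K := ZF) (t := fun _ a b => prod a b) hz hρ.1.1 hμ.1.1)
  let tr : V → V → V := fun h z => img (fun w => pair (fst w) (ap h (snd w))) z
  obtain ⟨S, hS, -, -, s1⟩ := Cls2.choice (W := N) hN.1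
    (R := fun h m => m ∈ μ ∧ (IsFunc (dom h) μ h → ∀ j ∈ ρ, ap h j ∈ m) ∧
      ∀ x ∈ θ, ∀ y ∈ μ, pair (tr h (ap g x)) y ∈ F → y ∈ m)
    (cls5 (K := ZF) (S := fun _ μ ρ θ g F z => snd z ∈ μ ∧
      (IsFunc (dom (fst z)) μ (fst z) → ∀ j ∈ ρ, ap (fst z) j ∈ snd z) ∧
      ∀ x ∈ θ, ∀ y ∈ μ, pair (tr (fst z) (ap g x)) y ∈ F → y ∈ snd z)
      hz hμ.1.1 hρ.1.1 (hz.mem hθ hμ.1.1) hg hF) T1 fun h hh => by
      have hN' := hz.mem hh T1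
      let t : V → V → V → V → V → V := fun μ F h g x =>
        ⋃₀ ZFSet.sep (fun y => pair (tr h (ap g x)) y ∈ F) μ
      have t1 : ∀ x, ∀ y ∈ μ, pair (tr h (ap g x)) y ∈ F → t μ F h g x = y := fun x y a1 a2 => by
        have : ZFSet.sep (fun y => pair (tr h (ap g x)) y ∈ F) μ = {y} := by
          ext z; simp only [mem_sep, mem_singleton]
          exact ⟨fun a => hf _ _ _ a.2 a2, fun a => a ▸ ⟨a1, a2⟩⟩
        simp only [t, this, sUnion_singleton]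
      obtain ⟨m, hm, b1⟩ := hμ.bdd hθ (t := t μ F h g)
        (tm5 (K := ZF) (t := fun _ μ F h g θ => graph (t μ F h g) θ) hz hμ.1.1 hF hN' hg
          (hz.mem hθ hμ.1.1)) fun x _ => by
          by_cases c : ∃ y ∈ μ, pair (tr h (ap g x)) y ∈ F
          · obtain ⟨y, a1, a2⟩ := c
            rwa [t1 x y a1 a2]
          · convert hμ.zero using 1
            refine (eq_empty _).2 fun w hw => c ?_
            obtain ⟨y, a1, -⟩ := mem_sUnion.1 hw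
            exact ⟨y, mem_sep.1 a1⟩
      obtain ⟨m', hm', b2⟩ : ∃ m' ∈ μ, IsFunc (dom h) μ h → ∀ j ∈ ρ, ap h j ⊆ m' := by
        by_cases c : IsFunc (dom h) μ h
        · obtain ⟨m', a1, a2⟩ := hμ.bdd ρμ (t := fun j => ap h j)
            (tm2 (K := ZF) (t := fun _ h ρ => graph (fun j => ap h j) ρ) hz hN' hρ.1.1)
            fun j _ => ap_mem_of_func hμ.zero c j
          exact ⟨m', a1, fun _ => a2⟩
        · exact ⟨∅, hμ.zero, fun a => absurd a c⟩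
      have u := union_mem ho hm hm'
      have uo := isOrdinal_succ (ho.mem u)
      refine ⟨_, hz.mem (hμ.succ hz u) hμ.1.1, hμ.succ hz u, fun c j hj => ?_,
        fun x hx y a1 a2 => ?_⟩
      · exact (ho.mem (ap_mem_of_func hμ.zero c j)).mem_of_subset_of_mem uo
          (fun z a => mem_union.2 (.inr (b2 c j hj a))) (mem_insert _ _)
      · exact (ho.mem a1).mem_of_subset_of_mem uo
          (fun z a => mem_union.2 (.inl (b1 x hx (t1 x y a1 a2 ▸ a)))) (mem_insert _ _)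
  have key := sq_mem hz hS ρo hρ.1.1 T2 fun s hs => (s1 s hs).1
  have dμ : ∀ i ∈ ρ, sq S i ∈ μ := fun i hi => by rw [sq_eq]; exact (s1 _ (key i hi)).1
  have dm : ∀ i ∈ ρ, ∀ j ∈ i, sq S j ∈ sq S i := fun i hi j hj => by
    have := (s1 _ (key i hi)).2.1 (by
      rw [dom_graph]; exact isFunc_graph fun k hk => dμ k (ρo.mem_trans hk hi)) j
      (ρo.mem_trans hj hi)
    rwa [ap_graph' hj, ← sq_eq] at this
  have dδ : ∀ i ∈ ρ, sq S i ∈ (⋃₀ img (sq S) ρ : V) := fun i hi =>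
    mem_sUnion.2 ⟨_, mem_img.2 ⟨_, hρ.succ hz hi, rfl⟩, dm _ (hρ.succ hz hi) i (mem_insert _ _)⟩
  have inv : ∀ i ∈ ρ, ∀ j ∈ ρ, sq S j ∈ sq S i → j ∈ i := fun i hi j hj a => by
    rcases (ρo.mem hj).mem_trichotomous (ρo.mem hi) with c | rfl | c
    exacts [c, absurd a (mem_irrefl _), absurd (dm j hj i c) (mem_asymm a)]
  obtain ⟨Y, y1, y2, y3⟩ := hcov (img (sq S) ρ)
    (tm2 (K := ZF) (t := fun _ S ρ => img (fun i => sq S i) ρ) hz hS hρ.1.1)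
    (fun z a => by obtain ⟨i, hi, rfl⟩ := mem_img.1 a; exact dμ i hi)
    ⟨graph (sq S) ρ, tm2 (K := ZF) (t := fun _ S ρ => graph (fun i => sq S i) ρ) hz hS hρ.1.1,
      onto_graph (fun i hi => mem_img.2 ⟨i, hi, rfl⟩) fun y hy => mem_img.1 hy,
      fun ξ η x y a1 a2 a3 => by
        rw [← (pair_mem_graph.1 a1).2, ← (pair_mem_graph.1 a2).2]
        exact dm η (pair_mem_graph.1 a2).1 ξ a3⟩
    fun α hα => by
      obtain ⟨x, hx, a⟩ := mem_sUnion.1 hα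
      obtain ⟨i, hi, rfl⟩ := mem_img.1 hx
      exact ⟨_, hx, dδ i hi, a⟩
  have yi : ∀ γ ∈ Y, ∃ i ∈ ρ, sq S i = γ := fun γ a => mem_img.1 (y3 γ a)
  obtain ⟨T', T3, T4⟩ := hW.2 _ (tm2 (K := ZF) (t := fun _ a b => prod a b) wz σW hμW)
  obtain ⟨S', hS', -, -, s2⟩ := Cls2.choice (W := W) hW.1
    (R := fun h y => y ∈ Y ∧ ((∃ y' ∈ Y, ∀ η ∈ dom h, ap h η ∈ y') → ∀ η ∈ dom h, ap h η ∈ y))
    (cls1 (K := ZF) (S := fun _ Y z => snd z ∈ Y ∧ ((∃ y' ∈ Y, ∀ η ∈ dom (fst z),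
      ap (fst z) η ∈ y') → ∀ η ∈ dom (fst z), ap (fst z) η ∈ snd z)) wz y1) T3 fun h _ => by
      by_cases c : ∃ y' ∈ Y, ∀ η ∈ dom h, ap h η ∈ y'
      · obtain ⟨y, a1, a2⟩ := c
        exact ⟨y, wz.mem a1 y1, a1, fun _ => a2⟩
      · obtain ⟨y, a1, -⟩ := y2 _ (dδ _ hρ.zero)
        exact ⟨y, wz.mem a1 y1, a1, fun a => absurd a c⟩
  have Yμ : ∀ γ ∈ Y, γ ∈ μ := fun γ a => by
    obtain ⟨i, hi, rfl⟩ := yi γ a
    exact dμ i hi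
  have key' := sq_mem wz hS' σo σW T4 fun s hs => Yμ _ (s2 s hs).1
  have eY : ∀ ξ ∈ σ, sq S' ξ ∈ Y := fun ξ hξ => by rw [sq_eq]; exact (s2 _ (key' ξ hξ)).1
  refine ⟨graph (sq S') σ,
    tm2 (K := ZF) (t := fun _ S ξ => graph (fun η => sq S η) ξ) wz hS' σW,
    isFunc_graph fun ξ hξ => Yμ _ (eY ξ hξ), fun ξ hξ x y a1 a2 a3 => ?_⟩
  have e1 : graph (sq S') σ ∩ prod ξ μ = graph (sq S') ξ := by
    ext z
    simp only [mem_inter, mem_graph]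
    constructor
    · rintro ⟨⟨η, -, rfl⟩, a⟩
      exact ⟨η, (pair_mem_prod.1 a).1, rfl⟩
    · rintro ⟨η, hη, rfl⟩
      exact ⟨⟨η, σo.mem_trans hη hξ, rfl⟩,
        pair_mem_prod.2 ⟨hη, Yμ _ (eY η (σo.mem_trans hη hξ))⟩⟩
  rw [e1] at a3
  have ξρ := ρo.mem_trans hξ hσ
  obtain ⟨u, hu, u0, ud, u1⟩ := Cls2.choice (W := N) hN.1
    (R := fun η j => j ∈ ρ ∧ sq S j = sq S' η)
    (cls3 (K := ZF) (S := fun _ ρ S S' z => snd z ∈ ρ ∧ sq S (snd z) = sq S' (fst z))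
      hz hρ.1.1 hS (hWN hS')) (hz.mem ξρ hρ.1.1) fun η hη => by
      obtain ⟨j, hj, a⟩ := yi _ (eY η (σo.mem_trans hη hξ))
      exact ⟨j, hz.mem hj hρ.1.1, hj, a⟩
  have uN := tm2 (K := ZF) (t := fun _ u ξ => graph (fun η => ap u η) ξ) hz hu
    (hz.mem ξρ hρ.1.1)
  obtain ⟨m, hm, b1⟩ := hρ.bdd ξρ (t := fun η => ap u η) uN fun η hη => (u1 η hη).1
  have up : ∀ η ∈ ξ, sq S' η ∈ sq S' ξ := fun η hη => by
    obtain ⟨y', c1, -, c2⟩ := y2 _ (dδ m hm)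
    have := (s2 _ (key' ξ hξ)).2 ⟨y', c1, fun η hη => by
      rw [dom_graph] at hη
      rw [ap_graph' hη, ← (u1 η hη).2]
      rcases ((ρo.mem (u1 η hη).1).subset_iff_eq_or_mem (ρo.mem hm)).1 (b1 η hη) with c | c
      · rwa [c]
      · exact (ho.mem (Yμ _ c1)).mem_trans (dm m hm _ c) c2⟩ η (by rwa [dom_graph])
    rwa [ap_graph' hη, ← sq_eq] at this
  obtain ⟨i, hi, c⟩ := yi _ (eY ξ hξ)
  obtain ⟨w, hw, c1⟩ := hg1 _ uN fun z a => by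
    obtain ⟨η, hη, rfl⟩ := mem_graph.1 a
    exact pair_mem_prod.2 ⟨ρo.mem_trans hη ξρ, (u1 η hη).1⟩
  rw [← (pair_mem_graph.1 a1).2, ← c, sq_eq]
  refine (s1 _ (key i hi)).2.2 w hw y a2 ?_
  convert a3 using 2
  have e2 : ∀ η ∈ ξ, ap (graph (sq S) i) (ap u η) = sq S' η := fun η hη => by
    rw [ap_graph' (inv i hi _ (u1 η hη).1 (by rw [(u1 η hη).2, c]; exact up η hη)), (u1 η hη).2]
  ext z
  simp only [tr, c1, mem_img, mem_graph]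
  constructor
  · rintro ⟨_, ⟨η, hη, rfl⟩, rfl⟩
    exact ⟨η, hη, by rw [fst_pair, snd_pair, e2 η hη]⟩
  · rintro ⟨η, hη, rfl⟩
    exact ⟨_, ⟨η, hη, rfl⟩, by rw [fst_pair, snd_pair, e2 η hη]⟩

/-- Let `W[G]` be a nontrivial extension by a forcing of size `ν`, and let `N ⊇ W[G]` have the same
sequences of length below `μ` in `μ`, with `ν < ρ` regular and `2 ^ ρ < μ` in `N`. -/
theorem small_then_distributive (hW : ZFC W) (hN : ZFC N) (hc : N.Countable)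
    {P G κ f ρ θ g : V} (hP : P ∈ W) (hPo : Po P) (hG : Generic W P G) (hGW : G ∉ W)
    (hMN : Ext W G ⊆ N) (hμ : Regu N μ) (hμW : μ ∈ W) (hκ : κ ∈ μ) (hν : insert ν ν ∈ κ)
    (hf : f ∈ W) (hf1 : Onto f ν P) (hd : ∀ α ∈ μ, ∀ s ∈ N, IsFunc α μ s → s ∈ Ext W G)
    (hρ : Regu N ρ) (νρ : ν ∈ ρ) (ρμ : ρ ∈ μ) (hθ : θ ∈ μ) (hg : g ∈ N)
    (hg1 : ∀ z ∈ N, z ⊆ prod ρ ρ → ∃ x ∈ θ, ap g x = z) :
    ∃ Q ∈ N, Po Q ∧ DirCl N Q μ ∧ (∃ H, Generic N Q H) ∧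
      ∀ H, Generic N Q H → ¬ DeltaRefl (Ext N H) κ μ := by
  have wz : ZF W := hW.1.1
  have hM := ext_zfc wz hP hPo hG hW
  have hWM := subset_ext wz hP hPo hG
  have ho := hμ.ord
  have κo := ho.mem hκ
  have νκ := κo.mem_trans (mem_insert _ _) hν
  have νμ := ho.mem_trans νκ hκ
  obtain ⟨I, i1, i2, i3, i4⟩ := ext_span hW hP hPo hG hGW (wz.mem νμ hμW) hf hf1
  obtain ⟨σ, s1, s2, s3, b, b1, b2, b3⟩ := fresh hW hM.1.1 hWM (ho.mem νμ) (wz.mem νμ hμW)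
    i1 i2 i3 i4
  obtain ⟨ν', n1, n2, A, a1, a2, a3⟩ := const_alg hN.1.1 ho hμ.1.1 (ho.mem_trans hν hκ)
  exact two_model hW hN hc (hWM.trans hMN) hμ hμW hκ (s1.mem_of_subset_of_mem κo s2 νκ) s3
    (hMN b1) b2 b3 (closed_seq_up hW hN (hWM.trans hMN) hμ hμW hρ ρμ
      (s1.mem_of_subset_of_mem hρ.ord s2 νρ) hθ hg hg1 fun B hB c1 c2 c3 => by
        obtain ⟨Y, y1, -, y3, y4⟩ := cover_up wz hM hN.1.1 hWM hMN hμ hμW hd i1 i2 i4 c1 νρ ρμ hρ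
          c2 hB c3
        exact ⟨Y, y1, y3, y4⟩)
    (n2.2.1.mem_of_subset_of_mem κo n1 hν) n2 a1 a2 fun B _ hB τ hτ c1 hO X hX hu => by
      obtain ⟨Y, y1, y2, y3, y4⟩ := cover_up wz hM hN.1.1 hWM hMN hμ hμW hd i1 i2 i4 hB.1
        (mem_of_otp ho hB.1 (a3 B hB) c1.ord hO) (ho.mem_trans hτ hκ) c1 hO hX hu
      exact ⟨Y, y1, y2, y3, fun γ a => .inl (y4 γ a)⟩

end Pool.Agent.Lib.MP_a2bc17_lc
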