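import Pool.Agent.Lib.MP_a2bc17_lc.Po

/-! The generic extension: no new short sequences, and the stationary set that does not reflect. -/

namespace Pool.Agent.Lib.MP_a2bc17_lc

open ZFSet Pool.Agent.Lib.MP_329f2d_lc

set_option synthInstance.maxSize 100000

variable {N : Set V} {μ Q H : V}

theorem ap_mem_of_func (h0 : (∅ : V) ∈ μ) {σ e : V} (he : IsFunc σ μ e) (ξ : V) : ap e ξ ∈ μ := by
  by_cases h : ξ ∈ σ
  · exact (isFunc_ap he h).2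
  · convert h0 using 1
    ext z
    simp only [ap, mem_sUnion, mem_sep, notMem_empty, iff_false]
    rintro ⟨y, ⟨-, hy⟩, -⟩
    exact h (pair_mem_prod.1 (he.1 hy)).1

theorem isFunc_empty : IsFunc ∅ μ ∅ := ⟨fun _ h => absurd h (notMem_empty _),
  fun _ h => absurd h (notMem_empty _)⟩

section
variable (hN : ZFC N) (hμ : Regu N μ) (hQ : IsQ N μ Q)
include hN hQ

theorem step_fun {σ : V} (hσ : σ ∈ N) {R : V → V → V → Prop}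
    (hR : Cls2 N fun z w => Cond N μ (snd z) → R (fst z) (snd z) w)
    (h : ∀ ξ ∈ σ, ∀ q, Cond N μ q → ∃ w ∈ N, R ξ q w) :
    ∃ G ∈ N, ∀ ξ ∈ σ, ∀ q, Cond N μ q → R ξ q (ap G (pair ξ q)) := by
  have hz : ZF N := hN.1.1
  obtain ⟨G, h1, -, -, h2⟩ := Cls2.choice (W := N) hN.1 hR
    (tm2 (K := ZF) (t := fun _ σ Q => prod σ (⋃₀ ⋃₀ Q)) hz hσ hQ.mem) fun z hz' => by
      obtain ⟨ξ, hξ, q, -, rfl⟩ := mem_prod.1 hz'
      by_cases hq : Cond N μ q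
      · obtain ⟨w, a, b⟩ := h ξ hξ q hq
        exact ⟨w, a, fun _ => by simpa using b⟩
      · exact ⟨∅, hz.empty, fun a => absurd (by simpa using a) hq⟩
  refine ⟨G, h1, fun ξ hξ q hq => ?_⟩
  simpa using h2 (pair ξ q) (pair_mem_prod.2 ⟨hξ, left_mem_sUnion ((hQ.iff _ _).2 hq.refl)⟩)
    (by simpa using hq)

variable (hH : Generic N Q H)
include hH

theorem meet {S : V → Prop} (hS : Cls N S) {p : V} (hp : p ∈ H)
    (hd : ∀ q, Le N μ q p → ∃ r, Le N μ r q ∧ S r) : ∃ r ∈ H, Le N μ r p ∧ S r := by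
  simpa only [hQ.iff] using Generic.meet hN.1.1 hQ.mem hQ.po hH hS hp
    (by simpa only [hQ.iff] using hd)

omit hN in
theorem meet2 {p q : V} (hp : p ∈ H) (hq : q ∈ H) : ∃ r ∈ H, Le N μ r p ∧ Le N μ r q := by
  simpa only [hQ.iff] using hH.1.meet hp hq

theorem total_below {F a b : V} (ha : a ∈ N) (hb : b ∈ N) (hF : F ∈ N) (hn : FunNm Q F a b)
    (h : ∀ x ∈ a, ∃ y ∈ b, ∃ r ∈ H, In3 F r x y) :
    ∃ p ∈ H, ∀ q, Le N μ q p → ∀ x ∈ a, ∃ r, Le N μ r q ∧ ∃ y ∈ b, In3 F r x y := by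
  obtain ⟨p, hp, h1⟩ := Generic.meet' hN.1.1 hQ.mem hQ.po hH (cls4 (K := ZF)
    (S := fun _ Q F a b p => (∀ q, pair q p ∈ Q → ∀ x ∈ a, ∃ r, pair r q ∈ Q ∧
      ∃ y ∈ b, In3 F r x y) ∨ ∃ x ∈ a, ∀ r, pair r p ∈ Q → ∀ y ∈ b, ¬ In3 F r x y)
    hN.1.1 hQ.mem hF ha hb) fun p hp => by
      by_cases hc : ∀ q, pair q p ∈ Q → ∀ x ∈ a, ∃ r, pair r q ∈ Q ∧ ∃ y ∈ b, In3 F r x y
      · exact ⟨p, hp, .inl hc⟩
      · push Not at hc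
        obtain ⟨q, a1, x, a2, a3⟩ := hc
        exact ⟨q, a1, .inr ⟨x, a2, a3⟩⟩
  rcases h1 with h1 | ⟨x, hx, h1⟩
  · exact ⟨p, hp, by simpa only [hQ.iff] using h1⟩
  · obtain ⟨y, hy, r, hr, h2⟩ := h x hx
    obtain ⟨t, -, a1, a2⟩ := hH.1.meet hp hr
    exact absurd (hn.mono _ _ _ _ h2 a2) (h1 t a1 y hy)

include hμ

theorem no_new (hc : N.Countable) {a b f : V} (ha : a ∈ μ) (hb : b ∈ N) (hf : f ∈ Ext N H)
    (h : IsFunc a b f) : f ∈ N := by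
  have hz : ZF N := hN.1.1
  have haN := hz.mem ha hμ.1.1
  obtain ⟨F, hF, hn, hv⟩ := exists_funNm hz hQ.mem hQ.po hH hc haN hb hf fun x y y' a1 a2 =>
    (h.2 x (pair_mem_prod.1 (h.1 a1)).1).unique a1 a2
  obtain ⟨p, hp, h1⟩ := total_below hN hQ hH haN hb hF hn fun x hx =>
    ⟨_, (isFunc_ap h hx).2, (hv x hx _ (isFunc_ap h hx).2).1 (isFunc_ap h hx).1⟩
  have hpN := Generic.mem hz hQ.mem hH hp
  obtain ⟨G, hG, h2⟩ := step_fun hN hQ haN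
    (R := fun ξ q w => Le N μ w q ∧ (Le N μ q p → ∃ y ∈ b, In3 F w ξ y))
    (cls4 (K := ZF) (S := fun W μ p b F z => Cond W μ (snd (fst z)) →
      Le W μ (snd z) (snd (fst z)) ∧ (Le W μ (snd (fst z)) p →
        ∃ y ∈ b, In3 F (snd z) (fst (fst z)) y)) hz hμ.1.1 hpN hb hF) fun ξ hξ q hq => by
      by_cases h3 : Le N μ q p
      · obtain ⟨r, a1, a2⟩ := h1 q h3 ξ hξ
        exact ⟨r, a1.1.2.2.2, a1, fun _ => a2⟩
      · exact ⟨q, hq.2.2.2, hq.refl, fun a => absurd a h3⟩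
  obtain ⟨r, hr, -, h3⟩ := meet hN hQ hH (cls3 (K := ZF)
    (S := fun _ F a b r => ∀ x ∈ a, ∃ y ∈ b, In3 F r x y) hz hF haN hb) hp fun q hq => by
      have ch := chain hz hμ hG hz.empty hq.1 ha (ap_mem_of_func hμ.zero isFunc_empty)
        fun ξ hξ q hq => (h2 ξ hξ q hq).1
      refine ⟨_, (ch a (mem_insert _ _)).1, fun x hx => ?_⟩
      have c1 := (ch x (mem_insert_of_mem _ hx)).1
      obtain ⟨y, hy, h4⟩ := (h2 x hx _ c1.1).2 (c1.trans hq)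
      rw [← PP_eq] at h4
      exact ⟨y, hy, hn.mono _ _ _ _ h4 ((hQ.iff _ _).2 ((ch a (mem_insert _ _)).2 x hx))⟩
  convert (cls2 (K := ZF) (S := fun _ F r z => In3 F r (fst z) (snd z)) hz hF
    (Generic.mem hz hQ.mem hH hr)).sep hz (tm2 (K := ZF) (t := fun _ a b => prod a b) hz haN hb)
    using 1
  ext z
  simp only [mem_sep]
  constructor
  · intro hz'
    obtain ⟨x, hx, y, hy, rfl⟩ := mem_prod.1 (h.1 hz')
    obtain ⟨y', a1, a2⟩ := h3 x hx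
    rw [(h.2 x hx).unique hz' ((hv x hx y' a1).2 ⟨r, hr, a2⟩)]
    exact ⟨pair_mem_prod.2 ⟨hx, a1⟩, by simpa using a2⟩
  · rintro ⟨a1, a2⟩
    obtain ⟨x, hx, y, hy, rfl⟩ := mem_prod.1 a1
    exact (hv x hx y hy).2 ⟨r, hr, by simpa using a2⟩

omit hN hμ in
theorem Z_iff {r γ : V} (hr : r ∈ H) (hγ : γ ∈ fst r) :
    γ ∈ (⋃₀ img snd H : V) ↔ γ ∈ snd r := by
  simp only [mem_sUnion, mem_img]
  refine ⟨?_, fun a => ⟨_, ⟨r, hr, rfl⟩, a⟩⟩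
  rintro ⟨_, ⟨q, hq, rfl⟩, a⟩
  obtain ⟨t, -, a1, a2⟩ := meet2 hQ hH hr hq
  exact (a1.2.2.2 γ hγ).1 (a2.snd_sub a)

theorem long {δ : V} (hδ : δ ∈ μ) : ∃ r ∈ H, δ ⊆ fst r := by
  obtain ⟨p, hp, -⟩ := hH.1.exists_mem
  obtain ⟨r, hr, -, h⟩ := meet hN hQ hH (cls1 (K := ZF) (S := fun _ δ r => δ ⊆ fst r) hN.1.1
    (hN.1.1.mem hδ hμ.1.1)) hp fun q hq => pad hN.1.1 hμ hδ hq.1
  exact ⟨r, hr, h⟩

end

/-- The main density argument. -/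
theorem dense_main {𝒲 : Set (Set V)} (hW : ∀ W ∈ 𝒲, ZF W) (hN : ZFC N) (hμ : Regu N μ)
    (hQ : IsQ N μ Q) {κ σ b F p q : V} (hσμ : σ ∈ μ) (hσ : CofLt N σ κ) (hσ0 : σ ≠ ∅)
    (hb : b ∈ N) (hb1 : Unb b σ) (hb2 : ∀ W ∈ 𝒲, ∀ Y ∈ W, Y ⊆ b → ¬ Unb Y σ)
    (hg : ∀ F ∈ N, Fn F → ∃ e ∈ N, (∀ W ∈ 𝒲, e ∈ W) ∧ IsFunc σ μ e ∧ ∀ ξ ∈ σ, ∀ x y,
      pair ξ x ∈ e → y ∈ μ → pair (e ∩ prod ξ μ) y ∈ F → y ∈ x)
    (hF : F ∈ N) (hm : ∀ r r' x y, In3 F r x y → Le N μ r' r → In3 F r' x y) (hp : p ∈ N)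
    (ht : ∀ q, Le N μ q p → ∀ x ∈ μ, ∃ r, Le N μ r q ∧ ∃ y ∈ μ, In3 F r x y) (hq : Le N μ q p) :
    ∃ r, Le N μ r q ∧ fst r ≠ ∅ ∧ Unb (snd r) (fst r) ∧ CofLt N (fst r) κ ∧
      (∀ W ∈ 𝒲, ∀ Y ∈ W,
        (∀ γ ∈ Y, γ ∈ fst r → γ ∈ snd r ∨ (σ = omega ∧ γ ≠ ∅ ∧ Unb (snd r) γ)) →
        ¬ Unb Y (fst r)) ∧
      ∀ α ∈ fst r, ∃ α' ∈ fst r, ∃ y ∈ fst r, α ⊆ α' ∧ In3 F r α' y := by
  have hz : ZF N := hN.1.1
  have ho := hμ.ord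
  have hσo := ho.mem hσμ
  have hσN := hz.mem hσμ hμ.1.1
  have suc : ∀ ξ ∈ σ, insert ξ ξ ∈ σ := fun ξ hξ => by
    obtain ⟨β, -, a1, a2⟩ := hb1 ξ hξ
    exact succ_mem_of_ord hσo a1 a2
  obtain ⟨G, hG, h2⟩ := step_fun hN hQ hσN
    (R := fun ξ q w => Le N μ w q ∧ (ξ ∉ b → w = q) ∧
      (ξ ∈ b → Le N μ q p → fst q ∈ snd w ∧ ∃ y ∈ fst w, In3 F w (fst q) y))
    (cls4 (K := ZF) (S := fun W μ p b F z => Cond W μ (snd (fst z)) →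
      Le W μ (snd z) (snd (fst z)) ∧ (fst (fst z) ∉ b → snd z = snd (fst z)) ∧
      (fst (fst z) ∈ b → Le W μ (snd (fst z)) p → fst (snd (fst z)) ∈ snd (snd z) ∧
        ∃ y ∈ fst (snd z), In3 F (snd z) (fst (snd (fst z))) y)) hz hμ.1.1 hp hb hF)
    fun ξ hξ q hq => by
      by_cases h3 : ξ ∈ b ∧ Le N μ q p
      · have c1 : Le N μ (pair (insert (fst q) (fst q)) (insert (fst q) (snd q))) q := by
          refine ⟨⟨by simpa using hμ.succ hz hq.1, fun γ hγ => ?_, by simp,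
            tm1 (K := ZF) (t := fun _ q => pair (insert (fst q) (fst q)) (insert (fst q) (snd q)))
              hz hq.2.2.2⟩, hq, fun γ hγ => by simp [hγ], fun γ hγ => ?_⟩
          · simp only [fst_pair, snd_pair, mem_insert_iff] at hγ ⊢
            exact hγ.imp id fun a => hq.2.1 a
          · simp only [snd_pair, mem_insert_iff]
            exact ⟨fun a => a.resolve_left fun e => mem_irrefl _ (e ▸ hγ), .inr⟩
        obtain ⟨r, a1, y, hy, a2⟩ := ht _ (c1.trans h3.2) _ hq.1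
        obtain ⟨w, a3, a4⟩ := pad hz hμ (hμ.succ hz hy) a1.1
        exact ⟨w, a3.1.2.2.2, (a3.trans a1).trans c1, fun a => absurd h3.1 a, fun _ _ =>
          ⟨(a3.trans a1).snd_sub (by simp), y, a4 (mem_insert _ _), hm _ _ _ _ a2 a3⟩⟩
      · exact ⟨q, hq.2.2.2, hq.refl, fun _ => rfl, fun a a' => absurd ⟨a, a'⟩ h3⟩
  obtain ⟨T, hT, hT'⟩ := hN.2 _ (tm2 (K := ZF) (t := fun _ σ μ => prod σ μ) hz hσN hμ.1.1)
  obtain ⟨e, heN, heW, he, h3⟩ := hg (graph (fun s => fst (Bs G s q (dom s))) T)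
    (tm3 (K := ZF) (t := fun _ G q T => graph (fun s => fst (Bs G s q (dom s))) T) hz hG
      hq.1.2.2.2 hT) (fn_graph _ _)
  have ch := chain hz hμ hG heN hq.1 hσμ (ap_mem_of_func hμ.zero he)
    fun ξ hξ q hq => (h2 ξ hξ q hq).1
  have ch1 := fun ξ (hξ : ξ ∈ σ) => ch ξ (mem_insert_of_mem _ hξ)
  have top := ch σ (mem_insert _ _)
  have pb : ∀ ξ ∈ σ, Le N μ (PP G e q ξ) (Bs G e q ξ) := fun ξ hξ => by
    rw [PP_eq]; exact (h2 ξ hξ _ (ch1 ξ hξ).1.1).1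
  have key0 : ∀ ξ ∈ σ, fst (Bs G e q ξ) = ap e ξ ∧
      ∃ y ∈ ap e ξ, ∀ r ∈ insert q (img (PP G e q) ξ), fst r ⊆ y := by
    intro ξ hξ
    have hs : ∀ η y, pair η y ∈ e ∩ prod ξ μ ↔ η ∈ ξ ∧ pair η y ∈ e := fun η y => by
      simp only [mem_inter, pair_mem_prod]
      exact ⟨fun a => ⟨a.2.1, a.1⟩, fun a => ⟨a.2, a.1, (pair_mem_prod.1 (he.1 a.2)).2⟩⟩
    have d1 : dom (e ∩ prod ξ μ) = ξ := by
      ext η
      simp only [mem_dom, hs]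
      exact ⟨fun ⟨_, a⟩ => a.1, fun a => ⟨_, a, (isFunc_ap he (hσo.mem_trans a hξ)).1⟩⟩
    have d2 : ∀ η ∈ ξ, ap (e ∩ prod ξ μ) η = ap e η := fun η hη =>
      ap_eq ((hs _ _).2 ⟨hη, (isFunc_ap he (hσo.mem_trans hη hξ)).1⟩) fun z a =>
        (isFunc_ap_eq he ((hs _ _).1 a).2).symm
    have d3 : ∀ γ, γ ∈ fst (Bs G (e ∩ prod ξ μ) q ξ) ↔
        ∃ r ∈ insert q (img (PP G e q) ξ), γ ∈ fst r := fun γ => by
      rw [Bs, mem_fst_lb, img_congr (PP_congr (hσo.mem hξ) d2)]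
      refine or_iff_right ?_
      simp only [ap, mem_sUnion, mem_sep, hs]
      rintro ⟨y, ⟨-, a, -⟩, -⟩
      exact mem_irrefl _ a
    have d4 : fst (Bs G (e ∩ prod ξ μ) q ξ) ∈ μ := by
      have := isOrdinal_sUnion (X := img fst (insert q (img (PP G e q) ξ))) fun x hx => by
        obtain ⟨r, hr, rfl⟩ := mem_img.1 hx
        rcases mem_insert_iff.1 hr with rfl | hr
        · exact ho.mem hq.1.1
        · obtain ⟨η, hη, rfl⟩ := mem_img.1 hr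
          exact ho.mem (pb η (hσo.mem_trans hη hξ)).1.1
      have e1 : fst (Bs G (e ∩ prod ξ μ) q ξ) = ⋃₀ img fst (insert q (img (PP G e q) ξ)) := by
        ext γ; rw [d3]; simp
      rw [e1]
      refine this.mem_of_subset_of_mem ho (fun γ hγ => ?_) (ch1 ξ hξ).1.1.1
      rw [Bs, mem_fst_lb]; right; simpa using hγ
    have d5 := h3 ξ hξ _ _ (isFunc_ap he hξ).1 d4 (pair_mem_graph.2 ⟨hT' _
      (tm3 (K := ZF) (t := fun _ e ξ μ => e ∩ prod ξ μ) hz heN (hz.mem hξ hσN) hμ.1.1)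
      fun z a => he.1 (mem_inter.1 a).1, by rw [d1]⟩)
    have d6 := (ho.mem (isFunc_ap he hξ).2).subset_of_mem d5
    refine ⟨?_, _, d5, fun r hr γ a => (d3 γ).2 ⟨r, hr, a⟩⟩
    ext γ
    rw [Bs, mem_fst_lb]
    exact ⟨fun a => a.elim id fun a => d6 ((d3 γ).2 a), .inl⟩
  have eo : ∀ ξ, IsOrdinal (ap e ξ) := fun ξ => ho.mem (ap_mem_of_func hμ.zero he ξ)
  have key : ∀ ξ ∈ σ, fst (Bs G e q ξ) = ap e ξ ∧ fst q ⊆ ap e ξ ∧
      ∀ η ∈ ξ, ∃ y ∈ ap e ξ, fst (PP G e q η) ⊆ y := fun ξ hξ => by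
    obtain ⟨a1, y, a2, a3⟩ := key0 ξ hξ
    exact ⟨a1, fun γ a => (eo ξ).mem_trans (a3 q (mem_insert _ _) a) a2,
      fun η hη => ⟨y, a2, a3 _ (mem_insert_of_mem _ (mem_img.2 ⟨η, hη, rfl⟩))⟩⟩
  have k1 : ∀ ξ ∈ σ, ap e ξ ⊆ fst (PP G e q ξ) := fun ξ hξ => (key ξ hξ).1 ▸ (pb ξ hξ).2.2.1
  have k2 : ∀ ξ ∈ σ, ∀ η ∈ ξ, fst (PP G e q η) ⊆ ap e ξ := fun ξ hξ η hη => by
    obtain ⟨y, a1, a2⟩ := (key ξ hξ).2.2 η hη
    exact fun γ a => (eo ξ).mem_trans (a2 a) a1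
  have k3 : ∀ ξ ∈ σ, ∀ η ∈ ξ, ap e η ∈ ap e ξ := fun ξ hξ η hη => by
    obtain ⟨y, a1, a2⟩ := (key ξ hξ).2.2 η hη
    exact (eo η).mem_of_subset_of_mem (eo ξ)
      (fun γ a => a2 (k1 η (hσo.mem_trans hη hξ) a)) a1
  have k4 : ∀ ξ ∈ σ, ap e ξ ⊆ fst (Bs G e q σ) := fun ξ hξ γ a => (top.2 ξ hξ).2.2.1 (k1 ξ hξ a)
  have k5 : ∀ ξ ∈ σ, ap e ξ ∈ fst (Bs G e q σ) := fun ξ hξ =>
    k4 _ (suc ξ hξ) (k3 _ (suc ξ hξ) ξ (mem_insert _ _))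
  obtain ⟨ξ0, hξ0⟩ : ∃ ξ0, ξ0 ∈ σ := by
    by_contra hc
    exact hσ0 ((eq_empty σ).2 fun y hy => hc ⟨y, hy⟩)
  have k6 : ∀ α ∈ fst (Bs G e q σ), ∃ ξ ∈ σ, α ∈ ap e ξ := fun α hα => by
    rw [Bs, mem_fst_lb] at hα
    rcases hα with hα | ⟨r, hr, hα⟩
    · simp only [ap, mem_sUnion, mem_sep] at hα
      obtain ⟨y, ⟨-, a⟩, -⟩ := hα
      exact absurd (pair_mem_prod.1 (he.1 a)).1 (mem_irrefl _)
    · rcases mem_insert_iff.1 hr with rfl | hr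
      · exact ⟨ξ0, hξ0, (key ξ0 hξ0).2.1 hα⟩
      · obtain ⟨η, hη, rfl⟩ := mem_img.1 hr
        exact ⟨_, suc η hη, k2 _ (suc η hη) η (mem_insert _ _) hα⟩
  have k7 : ∀ α ∈ fst (Bs G e q σ), ∃ ξ ∈ σ, α ∈ ap e ξ ∧ ap e ξ ∈ snd (Bs G e q σ) ∧
      ∃ y ∈ fst (Bs G e q σ), In3 F (Bs G e q σ) (ap e ξ) y := fun α hα => by
    obtain ⟨η, hη, a⟩ := k6 α hα
    obtain ⟨ξ, a1, hξ, a2⟩ := hb1 η hη
    obtain ⟨c1, y, c2, c3⟩ := (h2 ξ hξ _ (ch1 ξ hξ).1.1).2.2 a1 ((ch1 ξ hξ).1.trans hq)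
    rw [← PP_eq, (key ξ hξ).1] at c1 c3
    rw [← PP_eq] at c2
    exact ⟨ξ, hξ, (eo ξ).mem_trans a (k3 ξ hξ η a2), (top.2 ξ hξ).snd_sub c1, y,
      (top.2 ξ hξ).2.2.1 c2, hm _ _ _ _ c3 (top.2 ξ hξ)⟩
  have k8 : ∀ γ ∈ snd (Bs G e q σ), γ ∈ snd q ∨
      ∃ η ∈ σ, η ∈ b ∧ ap e η ⊆ γ ∧ γ ∈ ap e (insert η η) := fun γ hγ => by
    rw [Bs, mem_snd_lb] at hγ
    obtain ⟨r, hr, hγ⟩ := hγ
    refine or_iff_not_imp_left.2 fun h0 => ?_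
    obtain ⟨η, hη, a1, a2⟩ := exists_least hσo (P := fun η => γ ∈ snd (PP G e q η)) (by
      rcases mem_insert_iff.1 hr with rfl | hr
      · exact absurd hγ h0
      · obtain ⟨η, hη, rfl⟩ := mem_img.1 hr
        exact ⟨η, hη, hγ⟩)
    have a3 : γ ∉ snd (Bs G e q η) := fun a => by
      rw [Bs, mem_snd_lb] at a
      obtain ⟨r, hr, a⟩ := a
      rcases mem_insert_iff.1 hr with rfl | hr
      · exact h0 a
      · obtain ⟨η', hη', rfl⟩ := mem_img.1 hr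
        exact mem_irrefl _ (a2 η' (hσo.mem_trans hη' hη) a hη')
    have a4 := k2 _ (suc η hη) η (mem_insert _ _) ((pb η hη).1.2.1 a1)
    refine ⟨η, hη, by_contra fun a => a3 ?_, ?_, a4⟩
    · rwa [PP_eq, (h2 η hη _ (ch1 η hη).1.1).2.1 a] at a1
    · refine (((eo _).mem a4).notMem_iff_subset (eo η)).1 fun a => a3 ?_
      exact ((pb η hη).2.2.2 γ ((key η hη).1 ▸ a)).1 a1
  have mono : ∀ ξ ∈ σ, ∀ η ∈ ξ, ap e (insert η η) ⊆ ap e ξ := fun ξ hξ η hη => by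
    rcases ((isOrdinal_succ ((hσo.mem hξ).mem hη)).subset_iff_eq_or_mem (hσo.mem hξ)).1
      (fun z a => (mem_insert_iff.1 a).elim (fun e => e ▸ hη)
        fun a => (hσo.mem hξ).mem_trans a hη) with c | c
    · rw [c]
    · exact (eo ξ).subset_of_mem (k3 ξ hξ _ c)
  have k9 : ∀ γ ∈ fst (Bs G e q σ), (γ ∈ snd (Bs G e q σ) ∨
      (σ = omega ∧ γ ≠ ∅ ∧ Unb (snd (Bs G e q σ)) γ)) → (∀ ξ ∈ σ, γ ∈ ap e ξ) ∨
      ∃ η ∈ σ, η ∈ b ∧ ap e η ⊆ γ ∧ γ ∈ ap e (insert η η) := by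
    rintro γ hγ (a | ⟨a1, -, a2⟩)
    · exact (k8 γ a).imp (fun c ξ hξ => (key ξ hξ).2.1 (hq.1.2.1 c)) id
    have go : IsOrdinal γ := (ho.mem top.1.1.1).mem hγ
    rcases (ho.mem hq.1.1).mem_or_subset go with c | c
    swap
    · refine .inl fun ξ hξ => ?_
      obtain ⟨y, b1, b2⟩ := (key0 ξ hξ).2
      exact go.mem_of_subset_of_mem (eo ξ) (fun z a => b2 q (mem_insert _ _) (c a)) b1
    have one : ∀ α ∈ γ, ∃ β ∈ γ, α ∈ β ∧ β ∈ snd (Bs G e q σ) ∧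
        ∃ η ∈ σ, η ∈ b ∧ ap e η ⊆ β ∧ β ∈ ap e (insert η η) := fun α hα => by
      obtain ⟨β, b1, b2, b3⟩ := a2 _ (union_mem go hα c)
      have bo := go.mem b2
      refine ⟨β, b2, (go.mem hα).mem_of_subset_of_mem bo (fun z a => mem_union.2 (.inl a)) b3, b1,
        (k8 β b1).resolve_left fun a => mem_asymm (hq.1.2.1 a) ?_⟩
      exact (ho.mem hq.1.1).mem_of_subset_of_mem bo (fun z a => mem_union.2 (.inr a)) b3
    obtain ⟨ξ, hξ, b1, b2⟩ := exists_least hσo (P := fun ξ => γ ⊆ ap e ξ)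
      ((k6 γ hγ).imp fun ξ a => ⟨a.1, (eo ξ).subset_of_mem a.2⟩)
    obtain ⟨k, rfl⟩ := mem_omega.1 (a1 ▸ hξ)
    rcases k with _ | k
    · obtain ⟨β, c1, -, -, η, c2, -, c3, -⟩ := one _ c
      rcases (hσo.mem hξ).mem_trichotomous (hσo.mem c2) with d | rfl | d
      · exact absurd (c3 ((eo η).mem_trans (b1 c1) (k3 η c2 _ d))) (mem_irrefl _)
      · exact absurd (c3 (b1 c1)) (mem_irrefl _)
      · exact absurd d (notMem_empty _)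
    rw [nat_succ] at hξ b1 b2
    have hk : nat k ∈ σ := hσo.mem_trans (mem_insert _ _) hξ
    have b3 : ap e (nat k) ∈ γ := (go.not_subset_iff_mem (eo _)).1 fun a =>
      mem_irrefl _ (b2 _ hk a (mem_insert _ _))
    refine .inr ⟨_, hk, ?_, go.subset_of_mem b3, ?_⟩
    · obtain ⟨β, c1, c0, -, η, c2, c4, c3, c5⟩ := one _ b3
      rcases (hσo.mem hk).mem_trichotomous (hσo.mem c2) with d | rfl | d
      · exact absurd (c3 (mono η c2 _ d (b1 c1))) (mem_irrefl _)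
      · exact c4
      · exact absurd (mono _ hk η d c5) (mem_asymm c0)
    · refine ((go.subset_iff_eq_or_mem (eo _)).1 b1).resolve_left fun d => ?_
      obtain ⟨d1, y, d2, d3⟩ := key0 _ hξ
      obtain ⟨β, c1, c0, c2, -⟩ := one y (d ▸ d2)
      have c3 := (((top.2 _ hξ).trans (pb _ hξ)).2.2.2 β (d1 ▸ d ▸ c1)).1 c2
      rw [Bs, mem_snd_lb] at c3
      obtain ⟨r, hr, c3⟩ := c3
      refine mem_asymm c0 (d3 r hr ?_)
      rcases mem_insert_iff.1 hr with rfl | hr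
      · exact hq.1.2.1 c3
      · obtain ⟨η, hη, rfl⟩ := mem_img.1 hr
        exact (pb η (hσo.mem_trans hη hξ)).1.2.1 c3
  refine ⟨Bs G e q σ, top.1, fun h0 => notMem_empty _ (h0 ▸ k5 ξ0 hξ0), fun α hα => ?_,
    ?_, fun W hW' Y hY h4 h5 => ?_, fun α hα => ?_⟩
  · obtain ⟨ξ, hξ, a1, a2, -⟩ := k7 α hα
    exact ⟨_, a2, k5 ξ hξ, a1⟩
  · obtain ⟨τ, t1, f, t2, t3, t4⟩ := hσ
    have τN : τ ∈ N := by
      convert tm1 (K := ZF) (t := fun _ f => dom f) hz t2 using 1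
      ext x; rw [mem_dom]
      exact ⟨fun a => ⟨_, (isFunc_ap t3 a).1⟩, fun ⟨_, a⟩ => (pair_mem_prod.1 (t3.1 a)).1⟩
    refine ⟨τ, t1, graph (fun x => ap e (ap f x)) τ, tm3 (K := ZF)
      (t := fun _ e f τ => graph (fun x => ap e (ap f x)) τ) hz heN t2 τN,
      isFunc_graph fun x hx => k5 _ (isFunc_ap t3 hx).2, fun β hβ => ?_⟩
    obtain ⟨ξ, hξ, a⟩ := k6 β hβ
    obtain ⟨x, y, a1, a2⟩ := t4 ξ hξ
    obtain ⟨a3, a4⟩ := pair_mem_prod.1 (t3.1 a1)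
    refine ⟨x, _, pair_mem_graph.2 ⟨a3, rfl⟩, ?_⟩
    rw [isFunc_ap_eq t3 a1]
    rcases ((hσo.mem hξ).subset_iff_eq_or_mem (hσo.mem a4)).1 a2 with rfl | c
    · exact (eo ξ).subset_of_mem a
    · exact (eo y).subset_of_mem ((eo y).mem_trans a (k3 y a4 ξ c))
  · have hσW : σ ∈ W := by
      convert tm1 (K := ZF) (t := fun _ f => dom f) (hW W hW') (heW W hW') using 1
      ext x; rw [mem_dom]
      exact ⟨fun a => ⟨_, (isFunc_ap he a).1⟩, fun ⟨_, a⟩ => (pair_mem_prod.1 (he.1 a)).1⟩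
    refine hb2 W hW' _ ((cls2 (K := ZF) (S := fun _ e Y ξ => ∃ γ ∈ Y, ap e ξ ⊆ γ ∧
      γ ∈ ap e (insert ξ ξ)) (hW W hW') (heW W hW') hY).sep (hW W hW') hσW) (fun ξ hξ => ?_)
      fun ξ hξ => ?_
    · obtain ⟨hξ, γ, a1, a2, a3⟩ := mem_sep.1 hξ
      rcases k9 γ (k4 _ (suc ξ hξ) a3) (h4 γ a1 (k4 _ (suc ξ hξ) a3)) with c | ⟨η, hη, c1, c2, c3⟩
      · exact absurd (a2 (c ξ hξ)) (mem_irrefl _)
      · rcases (hσo.mem hξ).mem_trichotomous (hσo.mem hη) with c | rfl | c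
        · exact absurd (c2 (mono η hη ξ c a3)) (mem_irrefl _)
        · exact c1
        · exact absurd (a2 (mono ξ hξ η c c3)) (mem_irrefl _)
    · obtain ⟨γ, a1, a2, a3⟩ := h5 _ (k5 _ (suc ξ hξ))
      rcases k9 γ a2 (h4 γ a1 a2) with c | ⟨η, hη, c1, c2, c3⟩
      · exact absurd (c _ (suc ξ hξ)) (mem_asymm a3)
      · refine ⟨η, mem_sep.2 ⟨hη, γ, a1, c2, c3⟩, hη, ?_⟩
        rcases (hσo.mem hξ).mem_trichotomous (hσo.mem hη) with c | rfl | c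
        · exact c
        · exact absurd c3 (mem_asymm a3)
        · exact absurd (mono _ (suc ξ hξ) η (mem_insert_of_mem _ c) c3) (mem_asymm a3)
  · obtain ⟨ξ, hξ, a1, -, y, a2, a3⟩ := k7 α hα
    exact ⟨_, k5 ξ hξ, y, a2, (eo ξ).subset_of_mem a1, a3⟩

end Pool.Agent.Lib.MP_a2bc17_lc
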