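import Pool.Agent.Lib.MP_a2bc17_lc.Gen

/-! The two-model theorem. -/

namespace Pool.Agent.Lib.MP_a2bc17_lc

open ZFSet Pool.Agent.Lib.MP_329f2d_lc

set_option synthInstance.maxSize 100000

theorem not_unb_succ {X β : V} : ¬ Unb X (insert β β) := fun h => by
  obtain ⟨γ, -, a1, a2⟩ := h β (mem_insert _ _)
  rcases mem_insert_iff.1 a1 with rfl | a1
  exacts [mem_irrefl _ a2, mem_asymm a1 a2]

theorem many_models {𝒲 : Set (Set V)} {N : Set V} (hW : ∀ W ∈ 𝒲, ZF W) (hN : ZFC N)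
    (hc : N.Countable) {κ μ σ b ν A pw : V} (hμ : Regu N μ) (hκ : κ ∈ μ) (hσμ : σ ∈ μ)
    (hσ : CofLt N σ κ) (hσ0 : σ ≠ ∅) (pw1 : pw ∈ N) (pw2 : ∀ Y ∈ pw, ∃ W ∈ 𝒲, Y ∈ W)
    (hb : b ∈ N) (hb1 : Unb b σ) (hb2 : ∀ W ∈ 𝒲, ∀ Y ∈ W, Y ⊆ b → ¬ Unb Y σ)
    (hg : ∀ F ∈ N, Fn F → ∃ e ∈ N, (∀ W ∈ 𝒲, e ∈ W) ∧ IsFunc σ μ e ∧ ∀ ξ ∈ σ, ∀ x y,
      pair ξ x ∈ e → y ∈ μ → pair (e ∩ prod ξ μ) y ∈ F → y ∈ x)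
    (hν : ν ∈ κ) (hνc : Card N ν) (hA : A ∈ N) (hAl : Alg A ν μ)
    (hcov : ∀ B ∈ N, Subalg A μ B → ∀ ρ ∈ κ, Regu N ρ → Otp N B ρ →
      ∀ X ∈ N, Unb X (⋃₀ B) → ∃ Y ∈ pw, Y ⊆ ⋃₀ B ∧ Unb Y (⋃₀ B) ∧
        ∀ γ ∈ Y, γ ∈ X ∨ (σ = omega ∧ γ ≠ ∅ ∧ Unb X γ)) :
    ∃ Q ∈ N, Po Q ∧ DirCl N Q μ ∧ (∃ H, Generic N Q H) ∧
      ∀ H, Generic N Q H → ¬ DeltaRefl (Ext N H) κ μ := by
  have hz : ZF N := hN.1.1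
  have ho := hμ.ord
  obtain ⟨Q, hQ⟩ := exists_Q hN hμ
  refine ⟨Q, hQ.mem, hQ.po, hQ.dirCl hz hμ, ?_, fun H hH hD => ?_⟩
  · obtain ⟨z, hz'⟩ : ∃ z, z ∈ Q := by
      by_contra h
      exact hQ.po.1 ((eq_empty Q).2 fun y hy => h ⟨y, hy⟩)
    obtain ⟨p, q, -, hp, -⟩ := hQ.po.2.1 z hz'
    exact (exists_generic hc hQ.po hp).imp fun _ h => h.1
  have hE := ext_zfc hz hQ.mem hQ.po hH hN
  have ez : ZF (Ext N H) := hE.1.1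
  have sub := subset_ext hz hQ.mem hQ.po hH
  have nn := fun {a b f} => no_new (a := a) (b := b) (f := f) hN hμ hQ hH hc
  have hκN := hz.mem hκ hμ.1.1
  have hZ := tm1 (K := ZF) (t := fun _ H => ⋃₀ img snd H) ez (self_mem_ext hz hQ.mem hQ.po hH)
  have Zi := fun {r γ} => Z_iff (r := r) (γ := γ) hQ hH
  generalize hZd : (⋃₀ img snd H : V) = Z at hZ Zi
  have hσN := hz.mem hσμ hμ.1.1
  have Zu : ∀ {r γ}, r ∈ H → γ ⊆ fst r → (Unb Z γ ↔ Unb (snd r) γ) := fun {r γ} hr h =>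
    forall₂_congr fun α _ => exists_congr fun β =>
      ⟨fun a => ⟨(Zi hr (h a.2.1)).1 a.1, a.2⟩, fun a => ⟨(Zi hr (h a.2.1)).2 a.1, a.2⟩⟩
  have hS := (cls4 (K := ZF) (S := fun M Z κ pw σ δ => δ ≠ ∅ ∧ Unb Z δ ∧ CofLt M δ κ ∧
    ∀ Y ∈ pw, (∀ γ ∈ Y, γ ∈ δ → γ ∈ Z ∨ (σ = omega ∧ γ ≠ ∅ ∧ Unb Z γ)) → ¬ Unb Y δ) ez hZ
    (sub hκN) (sub pw1) (sub hσN)).sep ez (sub hμ.1.1)
  set S := ZFSet.sep _ μ with hSd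
  have Sm : ∀ δ, δ ∈ S ↔ δ ∈ μ ∧ δ ≠ ∅ ∧ Unb Z δ ∧ CofLt (Ext N H) δ κ ∧
      ∀ Y ∈ pw, (∀ γ ∈ Y, γ ∈ δ → γ ∈ Z ∨ (σ = omega ∧ γ ≠ ∅ ∧ Unb Z γ)) → ¬ Unb Y δ :=
    fun δ => mem_sep
  have st : Stat (Ext N H) S μ := by
    intro C hC hcl
    obtain ⟨f, hf, f1, fd, f2⟩ := Cls2.choice (W := Ext N H) hE.1 (R := fun α y => y ∈ C ∧ α ∈ y)
      (cls1 (K := ZF) (S := fun _ C z => snd z ∈ C ∧ fst z ∈ snd z) ez hC) (sub hμ.1.1)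
      fun α hα => by
        obtain ⟨β, a1, -, a2⟩ := hcl.2.1 α hα
        exact ⟨β, ez.mem a1 hC, a1, a2⟩
    obtain ⟨F, hF, hn, hv⟩ := exists_funNm hz hQ.mem hQ.po hH hc hμ.1.1 hμ.1.1 hf f1
    obtain ⟨p, hp, h1⟩ := total_below hN hQ hH hμ.1.1 hμ.1.1 hF hn fun x hx =>
      ⟨_, hcl.1 (f2 x hx).1, (hv x hx _ (hcl.1 (f2 x hx).1)).1 (f1.pair_ap (fd ▸ hx))⟩
    obtain ⟨r, hr, c0, c1, c2, c3, c4, c5⟩ := meet hN hQ hH (cls4 (K := ZF)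
      (S := fun M κ pw F σ r => fst r ≠ ∅ ∧ Unb (snd r) (fst r) ∧ CofLt M (fst r) κ ∧
        (∀ Y ∈ pw, (∀ γ ∈ Y, γ ∈ fst r → γ ∈ snd r ∨ (σ = omega ∧ γ ≠ ∅ ∧ Unb (snd r) γ)) →
          ¬ Unb Y (fst r)) ∧
        ∀ α ∈ fst r, ∃ α' ∈ fst r, ∃ y ∈ fst r, α ⊆ α' ∧ In3 F r α' y) hz hκN pw1 hF hσN) hp
      fun q hq => by
        obtain ⟨r, a0, a1, a2, a3, a4, a5⟩ := dense_main hW hN hμ hQ hσμ hσ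
          hσ0 hb hb1 hb2 hg hF
          (fun r r' x y a b => hn.mono _ _ _ _ a ((hQ.iff _ _).2 b))
          (Generic.mem hz hQ.mem hH hp) h1 hq
        exact ⟨r, a0, a1, a2, a3, fun Y hY =>
          (pw2 Y hY).elim fun W hW' => a4 W hW'.1 Y hW'.2, a5⟩
    have rμ := c0.1.1
    refine ⟨fst r, (Sm _).2 ⟨rμ, c1, fun α hα => ?_, ?_, fun Y hY a => c4 Y hY fun γ a1 a2 =>
      (a γ a1 a2).imp (Zi hr a2).1 fun c => ⟨c.1, c.2.1,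
        (Zu hr ((ho.mem rμ).subset_of_mem a2)).1 c.2.2⟩⟩, hcl.2.2 _ rμ c1 fun α hα => ?_⟩
    · obtain ⟨β, a1, a2, a3⟩ := c2 α hα
      exact ⟨β, (Zi hr a2).2 a1, a2, a3⟩
    · obtain ⟨τ, a1, g, a2, a3⟩ := c3
      exact ⟨τ, a1, g, sub a2, a3⟩
    · obtain ⟨α', a1, y, a2, a3, a4⟩ := c5 α hα
      have a5 := f1.ap_eq ((hv _ (ho.mem_trans a1 rμ) _ (ho.mem_trans a2 rμ)).2 ⟨r, hr, a4⟩)
      have a6 := f2 _ (ho.mem_trans a1 rμ)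
      rw [a5] at a6
      exact ⟨y, a6.1, a2, ((ho.mem rμ).mem hα).mem_of_subset_of_mem ((ho.mem rμ).mem a2) a3 a6.2⟩
  have hνμ := ho.mem_trans hν hκ
  obtain ⟨B, hB, B1, ρ, hρ, B2, ⟨f, hf, f1, f2⟩, B3⟩ := hD ν hν ⟨sub hνc.1, hνc.2.1,
    fun α hα ⟨f, hf, h⟩ => hνc.2.2 α hα ⟨f, nn (ho.mem_trans hα hνμ) hνc.1 hf h.1, h⟩⟩
    S hS (fun δ a => ((Sm δ).1 a).1) st (fun δ a => ((Sm δ).1 a).2.2.2.1) A (sub hA) hAl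
  have hρμ := ho.mem_trans hρ hκ
  have fN : f ∈ N := nn hρμ hμ.1.1 hf ⟨fun z a => by
    obtain ⟨x, a1, y, a2, rfl⟩ := mem_prod.1 (f1.1.1 a)
    exact pair_mem_prod.2 ⟨a1, B1.1 a2⟩, f1.1.2⟩
  have BN : B ∈ N := by
    convert tm1 (K := ZF) (t := fun _ f => ran f) hz fN using 1
    ext y
    rw [mem_ran]
    exact ⟨fun a => (f1.2 y a).imp fun _ a => a.2, fun ⟨_, a⟩ => (pair_mem_prod.1 (f1.1.1 a)).2⟩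
  have δμ : (⋃₀ B : V) ∈ μ := by
    obtain ⟨m, hm, hm'⟩ := hμ.bdd hρμ (t := fun x => ap f x)
      (tm2 (K := ZF) (t := fun _ f ρ => graph (fun x => ap f x) ρ) hz fN (hz.mem hρμ hμ.1.1))
      fun x hx => B1.1 (isFunc_ap f1.1 hx).2
    refine sUnion_mem ho hm fun x hx => ⟨B1.1 hx, ?_⟩
    obtain ⟨ξ, hξ, rfl⟩ := f1.ap hx
    exact hm' ξ hξ
  have δo := ho.mem δμ
  have δN := hz.mem δμ hμ.1.1
  have lim : ∀ β ∈ (⋃₀ B : V), insert β β ∈ (⋃₀ B : V) := fun β hβ => by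
    obtain ⟨x, hx, a⟩ := mem_sUnion.1 hβ
    obtain ⟨ξ, hξ, rfl⟩ := f1.ap hx
    have s1 := B2.succ ez hξ
    exact mem_sUnion.2 ⟨_, (isFunc_ap f1.1 s1).2, succ_mem_of_ord
      (ho.mem (B1.1 (isFunc_ap f1.1 s1).2))
      (f2 _ _ _ _ (isFunc_ap f1.1 hξ).1 (isFunc_ap f1.1 s1).1 (mem_insert _ _)) a⟩
  by_cases hu : Unb Z (⋃₀ B)
  · obtain ⟨r, hr, h1⟩ := long hN hμ hQ hH δμ
    have rN := Generic.mem hz hQ.mem hH hr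
    obtain ⟨Y, hY, Y0, Y2, Y1⟩ := hcov B BN B1 ρ hρ ⟨⟨hz.mem hρμ hμ.1.1, B2.1.2.1,
      fun α hα ⟨g, hg, h⟩ => B2.1.2.2 α hα ⟨g, sub hg, h⟩⟩, B2.2.1,
      fun ⟨τ, a1, g, a2, a3⟩ => B2.2.2 ⟨τ, a1, g, sub a2, a3⟩⟩ ⟨f, fN, f1, f2⟩ (snd r)
      (tm1 (K := ZF) (t := fun _ r => snd r) hz rN) fun α hα => by
        obtain ⟨β, a1, a2, a3⟩ := hu α hα
        exact ⟨β, (Zi hr (h1 a2)).1 a1, a2, a3⟩
    obtain ⟨γ, g1, g2⟩ := B3 _ ((cls1 (K := ZF) (S := fun _ Y γ =>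
      (∃ β ∈ Y, γ = insert β β) ∨ Unb Y γ) ez (sub (hz.mem hY pw1))).sep ez (sub δN))
      ⟨fun γ a => (mem_sep.1 a).1, fun α hα => by
        obtain ⟨β, a1, a2, a3⟩ := Y2 α hα
        exact ⟨_, mem_sep.2 ⟨lim β a2, .inl ⟨β, a1, rfl⟩⟩, lim β a2, mem_insert_of_mem _ a3⟩,
      fun γ hγ _ h2 => mem_sep.2 ⟨hγ, .inr fun α hα => by
        obtain ⟨γ1, -, a1, a2⟩ := h2 α hα
        obtain ⟨γ2, a3, a4, a5⟩ := h2 γ1 a1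
        have o2 := (δo.mem hγ).mem a4
        rcases (mem_sep.1 a3).2 with ⟨β, a6, rfl⟩ | a6
        · refine ⟨β, a6, (δo.mem hγ).mem_trans (mem_insert _ _) a4, ?_⟩
          rcases mem_insert_iff.1 a5 with rfl | a5
          exacts [a2, (o2.mem (mem_insert _ _)).mem_trans a2 a5]
        · obtain ⟨β, a7, a8, a9⟩ := a6 α (o2.mem_trans a2 a5)
          exact ⟨β, a7, (δo.mem hγ).mem_trans a8 a4, a9⟩⟩⟩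
    obtain ⟨-, -, s1, -, s2⟩ := (Sm γ).1 (mem_inter.1 g1).1
    rcases (mem_sep.1 g2).2 with ⟨β, -, rfl⟩ | a
    · exact not_unb_succ s1
    · exact s2 Y hY
        (fun z a _ => (Y1 z a).imp (Zi hr (h1 (Y0 a))).2 fun c => ⟨c.1, c.2.1,
          (Zu hr fun w b => h1 (δo.mem_trans b (Y0 a))).2 c.2.2⟩) a
  · simp only [Unb, not_forall] at hu
    obtain ⟨α, hα, hu⟩ := hu
    obtain ⟨γ, g1, g2⟩ := B3 _ ((cls1 (K := ZF) (S := fun _ α γ => α ∈ γ) ez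
      (sub (hz.mem hα δN))).sep ez (sub δN))
      ⟨fun γ a => (mem_sep.1 a).1, fun β hβ => by
        have u := union_mem δo hα hβ
        have uo := isOrdinal_succ (δo.mem u)
        refine ⟨_, mem_sep.2 ⟨lim _ u, ?_⟩, lim _ u, ?_⟩
        · exact (δo.mem hα).mem_of_subset_of_mem uo (fun z a => mem_union.2 (.inl a))
            (mem_insert _ _)
        · exact (δo.mem hβ).mem_of_subset_of_mem uo (fun z a => mem_union.2 (.inr a))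
            (mem_insert _ _),
      fun γ hγ h0 h2 => mem_sep.2 ⟨hγ, by
        obtain ⟨β, a1, a2, -⟩ := h2 ∅ (empty_mem_of_ord (δo.mem hγ) h0)
        exact (δo.mem hγ).mem_trans (mem_sep.1 a1).2 a2⟩⟩
    obtain ⟨β, a1, a2, a3⟩ := ((Sm γ).1 (mem_inter.1 g1).1).2.2.1 α (mem_sep.1 g2).2
    exact hu ⟨β, a1, δo.mem_trans a2 (mem_sep.1 g2).1, a3⟩

theorem two_model {W N : Set V} (hW : ZFC W) (hN : ZFC N) (hc : N.Countable) (hWN : W ⊆ N)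
    {κ μ σ b ν A : V} (hμ : Regu N μ) (hμW : μ ∈ W) (hκ : κ ∈ μ) (hσ : σ ∈ κ) (hσ0 : σ ≠ ∅)
    (hb : b ∈ N) (hb1 : Unb b σ) (hb2 : ∀ Y ∈ W, Y ⊆ b → ¬ Unb Y σ)
    (hg : ∀ F ∈ N, Fn F → ∃ e ∈ W, IsFunc σ μ e ∧ ∀ ξ ∈ σ, ∀ x y, pair ξ x ∈ e → y ∈ μ →
      pair (e ∩ prod ξ μ) y ∈ F → y ∈ x)
    (hν : ν ∈ κ) (hνc : Card N ν) (hA : A ∈ N) (hAl : Alg A ν μ)
    (hcov : ∀ B ∈ N, Subalg A μ B → ∀ ρ ∈ κ, Regu N ρ → Otp N B ρ →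
      ∀ X ∈ N, Unb X (⋃₀ B) → ∃ Y ∈ W, Y ⊆ ⋃₀ B ∧ Unb Y (⋃₀ B) ∧
        ∀ γ ∈ Y, γ ∈ X ∨ (σ = omega ∧ γ ≠ ∅ ∧ Unb X γ)) :
    ∃ Q ∈ N, Po Q ∧ DirCl N Q μ ∧ (∃ H, Generic N Q H) ∧
      ∀ H, Generic N Q H → ¬ DeltaRefl (Ext N H) κ μ := by
  obtain ⟨pw, pw1, pw2⟩ := hW.2 μ hμW
  have ho := hμ.ord
  have hσμ := ho.mem_trans hσ hκ
  refine many_models (𝒲 := {W}) (by rintro _ rfl; exact hW.1.1) hN hc hμ hκ hσμ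
    ⟨σ, hσ, graph (fun x => x) σ, tm1 (K := ZF) (t := fun _ α => graph (fun x => x) α) hN.1.1
      (hN.1.1.mem hσμ hμ.1.1), isFunc_graph fun _ a => a,
      fun β hβ => ⟨β, β, pair_mem_graph.2 ⟨hβ, rfl⟩, fun _ a => a⟩⟩ hσ0 (hWN pw1)
    (fun Y hY => ⟨W, rfl, hW.1.1.mem hY pw1⟩) hb hb1 (by rintro _ rfl; exact hb2)
    (fun F hF hf => ?_) hν hνc hA hAl fun B a1 a2 ρ a3 a4 a5 X a6 a7 => ?_
  · obtain ⟨e, a1, a2⟩ := hg F hF hf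
    exact ⟨e, hWN a1, by rintro _ rfl; exact a1, a2⟩
  · obtain ⟨Y, y1, y2, y3⟩ := hcov B a1 a2 ρ a3 a4 a5 X a6 a7
    refine ⟨Y, pw2 Y y1 fun z a => ?_, y2, y3⟩
    obtain ⟨x, hx, a⟩ := mem_sUnion.1 (y2 a)
    exact ho.mem_trans a (a2.1 hx)

end Pool.Agent.Lib.MP_a2bc17_lc
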