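import Pool.Agent.Lib.MP_a2bc17_lc.Defs
import Pool.Agent.Lib.MP_329f2d_lc.H38G3

/-! The forcing that adds a Cohen subset of `μ`, and descending chains built by recursion. -/

namespace Pool.Agent.Lib.MP_a2bc17_lc

open ZFSet Pool.Agent.Lib.MP_329f2d_lc

/-- Conditions: an ordinal below `μ` and a subset of it. -/
def Cond (N : Set V) (μ q : V) : Prop :=
  fst q ∈ μ ∧ snd q ⊆ fst q ∧ q = pair (fst q) (snd q) ∧ q ∈ N

/-- End extension. -/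
def Le (N : Set V) (μ r q : V) : Prop :=
  Cond N μ r ∧ Cond N μ q ∧ fst q ⊆ fst r ∧ ∀ γ ∈ fst q, (γ ∈ snd r ↔ γ ∈ snd q)

/-- The union of a set of conditions, padded up to `m`. -/
noncomputable def lb (m D : V) : V := pair (m ∪ ⋃₀ img fst D) (⋃₀ img snd D)

/-- The chain built from the step function `G`, the padding `e` and the first condition `p`. -/
noncomputable def PP (G e p : V) : V → V :=
  rrec id fun ξ h => ap G (pair ξ (lb (ap e ξ) (insert p (ran h))))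

/-- The condition reached before step `ξ`. -/
noncomputable def Bs (G e p ξ : V) : V := lb (ap e ξ) (insert p (img (PP G e p) ξ))

theorem PP_eq (G e p ξ : V) : PP G e p ξ = ap G (pair ξ (Bs G e p ξ)) := by
  rw [PP, rrec_eq fun _ => rank_lt_of_mem, ran_graph]; rfl

section
set_option synthInstance.maxSize 100000
variable {K : Set V → Prop} [Cl K] {Γ : Type} [Countable Γ]
  (r s t u : Set V → (Γ → V) → V) [Tm K r] [Tm K s] [Tm K t] [Tm K u]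
  (C : Set V → (Γ → V) → Set V) [Dc K C]

instance df_Unb : Df K fun W v => Unb (s W v) (t W v) := by unfold Unb; infer_instance
instance df_CofLt : Df K fun W v => CofLt (C W v) (s W v) (t W v) := by
  unfold CofLt; infer_instance
instance df_Cond : Df K fun W v => Cond (C W v) (s W v) (t W v) := by unfold Cond; infer_instance
instance df_Le : Df K fun W v => Le (C W v) (r W v) (s W v) (t W v) := by
  unfold Le; infer_instance
instance tm_lb : Tm K fun W v => lb (s W v) (t W v) := by unfold lb; infer_instance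
instance tm_PP : Tm K fun W v => PP (r W v) (s W v) (t W v) (u W v) :=
  tm_rrec (fun _ _ x => x)
    (fun W v ξ h => ap (r W v) (pair ξ (lb (ap (s W v) ξ) (insert (t W v) (ran h)))))
    (fun _ _ _ _ => rank_lt_of_mem) u
instance tm_Bs : Tm K fun W v => Bs (r W v) (s W v) (t W v) (u W v) := by
  unfold Bs; infer_instance
end

variable {N : Set V} {μ Q : V}

theorem Regu.ord (h : Regu N μ) : IsOrdinal μ := h.1.2.1

theorem isOrdinal_sUnion {X : V} (h : ∀ x ∈ X, IsOrdinal x) : IsOrdinal (⋃₀ X : V) :=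
  isOrdinal_iff_forall_mem_isOrdinal.2 ⟨IsTransitive.sUnion' fun y hy => (h y hy).isTransitive,
    fun y hy => by
      obtain ⟨x, hx, hy⟩ := mem_sUnion.1 hy
      exact (h x hx).mem hy⟩

theorem sUnion_mem (hμ : IsOrdinal μ) {X m : V} (hm : m ∈ μ) (h : ∀ x ∈ X, x ∈ μ ∧ x ⊆ m) :
    (⋃₀ X : V) ∈ μ :=
  (isOrdinal_sUnion fun x hx => hμ.mem (h x hx).1).mem_of_subset_of_mem hμ (fun y hy => by
    obtain ⟨x, hx, hy⟩ := mem_sUnion.1 hy
    exact (h x hx).2 hy) hm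

theorem union_mem (hμ : IsOrdinal μ) {x y : V} (hx : x ∈ μ) (hy : y ∈ μ) : x ∪ y ∈ μ := by
  rcases (hμ.mem hx).subset_total (hμ.mem hy) with h | h
  · convert hy using 1
    ext z; simp only [mem_union]; exact ⟨fun a => a.elim (fun a => h a) id, .inr⟩
  · convert hx using 1
    ext z; simp only [mem_union]; exact ⟨fun a => a.elim id (fun a => h a), .inl⟩

theorem Regu.bdd (h : Regu N μ) {a : V} {t : V → V} (ha : a ∈ μ) (ht : graph t a ∈ N)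
    (h1 : ∀ x ∈ a, t x ∈ μ) : ∃ m ∈ μ, ∀ x ∈ a, t x ⊆ m := by
  by_contra hc
  refine h.2.2 ⟨a, ha, _, ht, isFunc_graph h1, fun β hβ => ?_⟩
  by_contra h2
  refine hc ⟨β, hβ, fun x hx => ?_⟩
  exact ((h.ord.mem hβ).subset_total (h.ord.mem (h1 x hx))).resolve_left fun h3 =>
    h2 ⟨x, _, pair_mem_graph.2 ⟨hx, rfl⟩, h3⟩

theorem Regu.succ (hN : ZF N) (h : Regu N μ) {α : V} (hα : α ∈ μ) : insert α α ∈ μ := by
  by_contra hc
  have h1 := ((isOrdinal_succ (h.ord.mem hα)).notMem_iff_subset h.ord).1 hc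
  refine h.2.2 ⟨nat 1, h.2.1 (nat_mem_omega 1), graph (fun _ => α) (nat 1),
    tm1 (K := ZF) (t := fun _ α => graph (fun _ => α) (nat 1)) hN (hN.mem hα h.1.1),
    isFunc_graph fun _ _ => hα, fun β hβ => ⟨nat 0, α, pair_mem_graph.2 ⟨by simp, rfl⟩, ?_⟩⟩
  rcases mem_insert_iff.1 (h1 hβ) with rfl | h2
  · exact fun _ h => h
  · exact (h.ord.mem hα).subset_of_mem h2

theorem Regu.zero (h : Regu N μ) : (∅ : V) ∈ μ := h.2.1 omega_zero

theorem Cond.refl {q : V} (h : Cond N μ q) : Le N μ q q := ⟨h, h, fun _ a => a, fun _ _ => Iff.rfl⟩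

theorem Le.trans {p q r : V} (h1 : Le N μ p q) (h2 : Le N μ q r) : Le N μ p r :=
  ⟨h1.1, h2.2.1, fun _ a => h1.2.2.1 (h2.2.2.1 a),
    fun γ a => (h1.2.2.2 γ (h2.2.2.1 a)).trans (h2.2.2.2 γ a)⟩

theorem Le.snd_sub {p q : V} (h : Le N μ p q) : snd q ⊆ snd p := fun γ a =>
  (h.2.2.2 γ (h.2.1.2.1 a)).2 a

@[simp] theorem mem_fst_lb {m D γ : V} : γ ∈ fst (lb m D) ↔ γ ∈ m ∨ ∃ q ∈ D, γ ∈ fst q := by
  simp [lb]

@[simp] theorem mem_snd_lb {m D γ : V} : γ ∈ snd (lb m D) ↔ ∃ q ∈ D, γ ∈ snd q := by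
  simp [lb]

theorem lb_le (hN : ZF N) (hμ : Regu N μ) {m m' D : V} (hD : D ∈ N) (hm : m ∈ μ) (hm' : m' ∈ μ)
    (h1 : ∀ q ∈ D, Cond N μ q ∧ fst q ⊆ m') (h2 : ∀ p ∈ D, ∀ q ∈ D, ∃ r, Le N μ r p ∧ Le N μ r q) :
    Cond N μ (lb m D) ∧ ∀ q ∈ D, Le N μ (lb m D) q := by
  have hc : Cond N μ (lb m D) := by
    refine ⟨?_, fun γ hγ => ?_, by simp [lb],
      tm2 (K := ZF) (t := fun _ m D => lb m D) hN (hN.mem hm hμ.1.1) hD⟩
    · rw [lb, fst_pair]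
      refine union_mem hμ.ord hm (sUnion_mem hμ.ord hm' fun x hx => ?_)
      obtain ⟨q, hq, rfl⟩ := mem_img.1 hx
      exact ⟨(h1 q hq).1.1, (h1 q hq).2⟩
    · obtain ⟨q, hq, hγ⟩ := mem_snd_lb.1 hγ
      exact mem_fst_lb.2 (.inr ⟨q, hq, (h1 q hq).1.2.1 hγ⟩)
  refine ⟨hc, fun q hq => ⟨hc, (h1 q hq).1, fun γ hγ => mem_fst_lb.2 (.inr ⟨q, hq, hγ⟩),
    fun γ hγ => ⟨fun a => ?_, fun a => mem_snd_lb.2 ⟨q, hq, a⟩⟩⟩⟩
  obtain ⟨p, hp, a⟩ := mem_snd_lb.1 a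
  obtain ⟨r, b, c⟩ := h2 p hp q hq
  exact (c.2.2.2 γ hγ).1 (b.snd_sub a)

theorem pad (hN : ZF N) (hμ : Regu N μ) {m q : V} (hm : m ∈ μ) (hq : Cond N μ q) :
    ∃ r, Le N μ r q ∧ m ⊆ fst r :=
  ⟨lb m {q}, (lb_le hN hμ (hN.singleton hq.2.2.2) hm hq.1
    (fun p hp => by rw [mem_singleton.1 hp]; exact ⟨hq, fun _ a => a⟩)
    fun p hp r hr => ⟨q, by rw [mem_singleton.1 hp]; exact hq.refl,
      by rw [mem_singleton.1 hr]; exact hq.refl⟩).2 q (by simp),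
    fun _ a => mem_fst_lb.2 (.inl a)⟩

theorem chain (hN : ZF N) (hμ : Regu N μ) {G e p σ : V} (hG : G ∈ N) (he : e ∈ N)
    (hp : Cond N μ p) (hσ : σ ∈ μ) (he' : ∀ ξ, ap e ξ ∈ μ)
    (hs : ∀ ξ ∈ σ, ∀ q, Cond N μ q → Le N μ (ap G (pair ξ q)) q) (ξ : V) :
    ξ ∈ insert σ σ → Le N μ (Bs G e p ξ) p ∧ ∀ η ∈ ξ, Le N μ (Bs G e p ξ) (PP G e p η) := by
  induction ξ using ZFSet.inductionOn with
  | _ ξ ih =>
  intro hξ
  have ho := isOrdinal_succ (hμ.ord.mem hσ)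
  have hξμ : ξ ∈ μ := hμ.ord.mem_trans hξ (hμ.succ hN hσ)
  have hξN := hN.mem hξμ hμ.1.1
  have a0 : ∀ η ∈ ξ, η ∈ σ := fun η hη => by
    rcases mem_insert_iff.1 hξ with rfl | h
    exacts [hη, (hμ.ord.mem hσ).mem_trans hη h]
  have a1 : ∀ η ∈ ξ, Le N μ (PP G e p η) (Bs G e p η) := fun η hη => by
    rw [PP_eq]; exact hs η (a0 η hη) _ (ih η hη (ho.mem_trans hη hξ)).1.1
  have a2 : ∀ η ∈ ξ, Le N μ (PP G e p η) p := fun η hη =>
    (a1 η hη).trans (ih η hη (ho.mem_trans hη hξ)).1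
  have a3 : ∀ η ∈ ξ, ∀ η' ∈ η, Le N μ (PP G e p η) (PP G e p η') := fun η hη η' hη' =>
    (a1 η hη).trans ((ih η hη (ho.mem_trans hη hξ)).2 η' hη')
  obtain ⟨m, hm, hm'⟩ := hμ.bdd hξμ (t := fun η => fst (PP G e p η))
    (tm4 (K := ZF) (t := fun _ G e p ξ => graph (fun η => fst (PP G e p η)) ξ) hN hG he
      hp.2.2.2 hξN) fun η hη => (a1 η hη).1.1
  have key := (lb_le hN hμ (D := insert p (img (PP G e p) ξ))
    (tm4 (K := ZF) (t := fun _ G e p ξ => insert p (img (fun η => PP G e p η) ξ)) hN hG he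
      hp.2.2.2 hξN) (he' ξ) (union_mem hμ.ord hp.1 hm) (fun q hq => ?_) fun q hq r hr => ?_).2
  · exact ⟨key p (mem_insert _ _), fun η hη => key _ (mem_insert_of_mem _ (mem_img.2 ⟨η, hη, rfl⟩))⟩
  · rcases mem_insert_iff.1 hq with rfl | hq
    · exact ⟨hp, fun _ a => mem_union.2 (.inl a)⟩
    · obtain ⟨η, hη, rfl⟩ := mem_img.1 hq
      exact ⟨(a1 η hη).1, fun _ a => mem_union.2 (.inr (hm' η hη a))⟩
  · rcases mem_insert_iff.1 hq with rfl | hq <;> rcases mem_insert_iff.1 hr with rfl | hr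
    · exact ⟨_, hp.refl, hp.refl⟩
    · obtain ⟨η, hη, rfl⟩ := mem_img.1 hr
      exact ⟨_, a2 η hη, (a1 η hη).1.refl⟩
    · obtain ⟨η, hη, rfl⟩ := mem_img.1 hq
      exact ⟨_, (a1 η hη).1.refl, a2 η hη⟩
    · obtain ⟨η, hη, rfl⟩ := mem_img.1 hq
      obtain ⟨η', hη', rfl⟩ := mem_img.1 hr
      rcases ((hμ.ord.mem hξμ).mem hη).mem_trichotomous ((hμ.ord.mem hξμ).mem hη') with h | rfl | h
      · exact ⟨_, a3 η' hη' η h, (a1 η' hη').1.refl⟩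
      · exact ⟨_, (a1 η hη).1.refl, (a1 η hη).1.refl⟩
      · exact ⟨_, (a1 η hη).1.refl, a3 η hη η' h⟩

theorem PP_congr {G e s p ξ : V} (hξ : IsOrdinal ξ) (h : ∀ η ∈ ξ, ap s η = ap e η) (η : V) :
    η ∈ ξ → PP G s p η = PP G e p η := by
  induction η using ZFSet.inductionOn with
  | _ η ih =>
  intro hη
  rw [PP_eq, PP_eq, Bs, Bs, h η hη, img_congr fun x hx => ih x hx (hξ.mem_trans hx hη)]

/-- `Q` is the forcing. -/
structure IsQ (N : Set V) (μ Q : V) : Prop where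
  mem : Q ∈ N
  po : Po Q
  iff : ∀ r q, pair r q ∈ Q ↔ Le N μ r q

theorem exists_Q (hN : ZFC N) (hμ : Regu N μ) : ∃ Q, IsQ N μ Q := by
  obtain ⟨pw, h1, h2⟩ := hN.2 μ hμ.1.1
  have hz : ZF N := hN.1.1
  have hQ := (cls1 (K := ZF) (S := fun W μ z => Le W μ (fst z) (snd z)) hz hμ.1.1).sep hz
    (tm2 (K := ZF) (t := fun _ μ pw => prod (prod μ pw) (prod μ pw)) hz hμ.1.1 h1)
  set Q := ZFSet.sep _ (prod (prod μ pw) (prod μ pw)) with hQd
  have c : ∀ q, Cond N μ q → q ∈ prod μ pw := fun q hq => by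
    rw [hq.2.2.1]
    exact pair_mem_prod.2 ⟨hq.1, h2 _ (tm1 (K := ZF) (t := fun _ q => snd q) hz hq.2.2.2)
      fun γ a => hμ.ord.mem_trans (hq.2.1 a) hq.1⟩
  have hi : ∀ r q, pair r q ∈ Q ↔ Le N μ r q := fun r q => by
    simp only [hQd, mem_sep, fst_pair, snd_pair]
    exact ⟨fun a => a.2, fun a => ⟨pair_mem_prod.2 ⟨c _ a.1, c _ a.2.1⟩, a⟩⟩
  have c0 : Cond N μ (pair ∅ ∅) := ⟨by simpa using hμ.zero, by simp, by simp,
    hz.opair hz.empty hz.empty⟩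
  refine ⟨Q, hQ, ⟨fun h => notMem_empty _ (h ▸ (hi _ _).2 c0.refl), fun z hz' => ?_,
    fun p q r a b => (hi _ _).2 (((hi _ _).1 a).trans ((hi _ _).1 b))⟩, hi⟩
  obtain ⟨p, -, q, -, rfl⟩ := mem_prod.1 (mem_sep.1 hz').1
  have := (hi _ _).1 hz'
  exact ⟨p, q, rfl, (hi _ _).2 this.1.refl, (hi _ _).2 this.2.1.refl⟩

theorem IsQ.dirCl (hN : ZF N) (hμ : Regu N μ) (hQ : IsQ N μ Q) : DirCl N Q μ := by
  rintro D hD h1 ⟨α, hα, f, hf, ho⟩ h2
  simp only [hQ.iff] at h1 h2 ⊢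
  obtain ⟨m, hm, hm'⟩ := hμ.bdd hα (t := fun x => fst (ap f x))
    (tm2 (K := ZF) (t := fun _ f α => graph (fun x => fst (ap f x)) α) hN hf (hN.mem hα hμ.1.1))
    fun x hx => (h1 _ (isFunc_ap ho.1 hx).2).1.1
  obtain ⟨a, b⟩ := lb_le hN hμ hD hm hm (fun q hq => ⟨(h1 q hq).1, by
    obtain ⟨x, hx, rfl⟩ := ho.ap hq
    exact hm' x hx⟩) h2
  exact ⟨_, a.refl, b⟩

end Pool.Agent.Lib.MP_a2bc17_lc
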